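import Pool.Agent.H8.Vdc

set_option autoImplicit false

open Set Complex

namespace Pool.Agent.H8

/-- `|φ(z)|² ≤ 1 - (3/64)|1-z|⁴` on the closed disc, for `φ(z) = (3+6z-z²)/8` -/
theorem phi_bound (z : ℂ) (hz : ‖z‖ ≤ 1) :
    ‖(3 + 6 * z - z ^ 2) / 8‖ ^ 2 ≤ 1 - 3 / 64 * ‖1 - z‖ ^ 4 := by
  have h1 : ‖z‖ ^ 2 = z.re ^ 2 + z.im ^ 2 := by
    rw [← normSq_eq_norm_sq, normSq_apply]; ring
  have h2 : ‖1 - z‖ ^ 2 = (1 - z.re) ^ 2 + z.im ^ 2 := by
    rw [← normSq_eq_norm_sq, normSq_apply]; simp; ring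
  have h3 : ‖(3 + 6 * z - z ^ 2) / 8‖ ^ 2 =
      ((3 + 6 * z.re - (z.re ^ 2 - z.im ^ 2)) ^ 2 + (6 * z.im - 2 * z.re * z.im) ^ 2) / 64 := by
    rw [norm_div, div_pow, ← normSq_eq_norm_sq, normSq_apply]
    simp [pow_two]
    ring
  have h4 : ‖1 - z‖ ^ 4 = ((1 - z.re) ^ 2 + z.im ^ 2) ^ 2 := by rw [← h2]; ring
  rw [h3, h4]
  have hz2 : z.re ^ 2 + z.im ^ 2 ≤ 1 := by
    rw [← h1]; exact pow_le_one₀ (norm_nonneg _) hz
  have hx1 : z.re ≤ 1 := by nlinarith [sq_nonneg z.im]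
  set x := z.re
  set y := z.im
  -- u = 1 - x^2 - y^2 , t = 1 - x
  have hu : 0 ≤ 1 - (x ^ 2 + y ^ 2) := by linarith
  have hu1 : 1 - (x ^ 2 + y ^ 2) ≤ 1 := by nlinarith [sq_nonneg x, sq_nonneg y]
  have key : 64 - ((3 + 6 * x - (x ^ 2 - y ^ 2)) ^ 2 + (6 * y - 2 * x * y) ^ 2) -
      3 * ((1 - x) ^ 2 + y ^ 2) ^ 2 =
      32 * (1 - (x ^ 2 + y ^ 2)) + 24 * (1 - (x ^ 2 + y ^ 2)) * (1 - x) -
        4 * (1 - (x ^ 2 + y ^ 2)) ^ 2 := by ring
  have : 0 ≤ 32 * (1 - (x ^ 2 + y ^ 2)) + 24 * (1 - (x ^ 2 + y ^ 2)) * (1 - x) -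
        4 * (1 - (x ^ 2 + y ^ 2)) ^ 2 := by
    have a1 := mul_nonneg hu (sub_nonneg.2 hx1)
    nlinarith [mul_nonneg hu (sub_nonneg.2 hu1)]
  linarith

/-- `φ` on the circle -/
noncomputable def g (x : ℝ) : ℂ := (3 + 6 * exp (x * I) - exp (x * I) ^ 2) / 8

/-- `D = 13 + 6 cos - 3 cos²` -/
noncomputable def D (x : ℝ) : ℝ := 13 + 6 * Real.cos x - 3 * Real.cos x ^ 2

theorem D_eq (x : ℝ) : D x = 16 - 3 * (1 - Real.cos x) ^ 2 := by unfold D; ring

theorem D_pos (x : ℝ) : 0 < D x := by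
  rw [D_eq]
  nlinarith [Real.neg_one_le_cos x, Real.cos_le_one x]

theorem exp_mul_exp_neg (x : ℝ) : exp (x * I) * exp (-x * I) = 1 := by
  rw [← exp_add]; simp

theorem g_norm_sq (x : ℝ) : ‖g x‖ ^ 2 = D x / 16 := by
  have hc : ((Real.cos x : ℝ) : ℂ) = (exp (x * I) + exp (-x * I)) / 2 := by
    rw [ofReal_cos]; rfl
  have hconj : (starRingEnd ℂ) (g x) = (3 + 6 * exp (-x * I) - exp (-x * I) ^ 2) / 8 := by
    unfold g
    rw [map_div₀, map_sub, map_add, map_mul, map_pow, ← exp_conj]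
    simp [Complex.conj_ofNat]
  have h : ((‖g x‖ ^ 2 : ℝ) : ℂ) = ((D x / 16 : ℝ) : ℂ) := by
    have e : ((‖g x‖ ^ 2 : ℝ) : ℂ) = g x * (starRingEnd ℂ) (g x) := by
      rw [mul_conj, normSq_eq_norm_sq]
    rw [e, hconj]
    unfold g D
    push_cast
    rw [← ofReal_cos, hc]
    linear_combination ((43 - 6 * exp (-x * I) - 6 * exp (x * I) + exp (x * I) * exp (-x * I)) / 64) *
      exp_mul_exp_neg x
  exact_mod_cast h

theorem g_deriv (x : ℝ) : HasDerivAt g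
    ((((-3 * Real.sin x * (1 - Real.cos x) / D x : ℝ) : ℂ) +
      (((11 - 3 * Real.cos x ^ 2) / D x : ℝ) : ℂ) * I) * g x) x := by
  have h0 : HasDerivAt (fun x : ℝ => exp (x * I)) (exp (x * I) * I) x := by
    have h1 : HasDerivAt (fun x : ℝ => (x : ℂ) * I) (1 * I) x :=
      (hasDerivAt_id x).ofReal_comp.mul_const I
    simpa using h1.cexp
  have h1 : HasDerivAt g ((6 * (exp (x * I) * I) - 2 * exp (x * I) * (exp (x * I) * I)) / 8) x := by
    have h2 := ((((h0.const_mul 6).const_add 3).sub (h0.pow 2)).div_const 8)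
    refine h2.congr_deriv ?_
    simp
  refine h1.congr_deriv ?_
  have hc : ((Real.cos x : ℝ) : ℂ) = (exp (x * I) + exp (-x * I)) / 2 := by
    rw [ofReal_cos]; rfl
  have hs : ((Real.sin x : ℝ) : ℂ) = (exp (-x * I) - exp (x * I)) * I / 2 := by
    rw [ofReal_sin]; rfl
  have hD0 : ((D x : ℝ) : ℂ) ≠ 0 := by exact_mod_cast (D_pos x).ne'
  have i1 : 4 * ((D x : ℝ) : ℂ) = (3 + 6 * exp (x * I) - exp (x * I) ^ 2) *
      (3 + 6 * exp (-x * I) - exp (-x * I) ^ 2) := by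
    unfold D
    push_cast
    rw [← ofReal_cos, hc]
    linear_combination -(43 - 6 * exp (-x * I) - 6 * exp (x * I) + exp (x * I) * exp (-x * I)) *
      exp_mul_exp_neg x
  have i2 : 4 * (-3 * ((Real.sin x : ℝ) : ℂ) * (1 - ((Real.cos x : ℝ) : ℂ)) +
      (11 - 3 * ((Real.cos x : ℝ) : ℂ) ^ 2) * I) =
      I * (6 * exp (x * I) - 2 * exp (x * I) ^ 2) *
      (3 + 6 * exp (-x * I) - exp (-x * I) ^ 2) := by
    rw [hc, hs]
    linear_combination (-I * (44 - 6 * exp (-x * I) - 12 * exp (x * I) +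
      2 * exp (x * I) * exp (-x * I))) * exp_mul_exp_neg x
  push_cast
  rw [← ofReal_cos, ← ofReal_sin]
  field_simp
  unfold g
  linear_combination ((3 + 6 * exp (x * I) - exp (x * I) ^ 2) / 4) * (-i2) +
    (I * (6 * exp (x * I) - 2 * exp (x * I) ^ 2) / 4) * i1

theorem D_deriv (x : ℝ) : HasDerivAt (fun x => D x / 16)
    ((2 * (-3 * Real.sin x * (1 - Real.cos x) / D x)) * (D x / 16)) x := by
  have hc := Real.hasDerivAt_cos x
  have h1 := ((((hc.const_mul 6).const_add 13).sub ((hc.pow 2).const_mul 3)).div_const 16)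
  refine (h1.congr_deriv ?_).congr_of_eventuallyEq (Filter.Eventually.of_forall fun y => ?_)
  · have := (D_pos x).ne'
    field_simp
    ring
  · simp [D]

theorem v_deriv (x : ℝ) : HasDerivAt (fun x => (11 - 3 * Real.cos x ^ 2) / D x)
    (Real.sin x * (66 + 12 * Real.cos x + 18 * Real.cos x ^ 2) / D x ^ 2) x := by
  have hc := Real.hasDerivAt_cos x
  have h1 : HasDerivAt (fun x => 11 - 3 * Real.cos x ^ 2) (6 * Real.cos x * Real.sin x) x := by
    refine (((hc.pow 2).const_mul 3).const_sub 11).congr_deriv ?_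
    ring
  have h2 : HasDerivAt D (-6 * Real.sin x + 6 * Real.cos x * Real.sin x) x := by
    refine (((hc.const_mul 6).const_add 13).sub ((hc.pow 2).const_mul 3)).congr_deriv ?_
    ring
  refine (h1.div h2 (D_pos x).ne').congr_deriv ?_
  congr 1
  unfold D
  ring

/-- `Z_{N,k}(x) = g(x)^(2N) e^{-ikx}` -/
noncomputable def Z (N : ℕ) (k : ℝ) (x : ℝ) : ℂ := g x ^ (2 * N) * exp (-(k * x : ℝ) * I)

theorem Z_deriv (N : ℕ) (k x : ℝ) : HasDerivAt (Z N k)
    ((((2 * N * (-3 * Real.sin x * (1 - Real.cos x) / D x) : ℝ) : ℂ) +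
      ((2 * N * ((11 - 3 * Real.cos x ^ 2) / D x) - k : ℝ) : ℂ) * I) * Z N k x) x := by
  have h1 := logderiv_pow_complex (g_deriv x) (2 * N)
  have h2 : HasDerivAt (fun x : ℝ => exp (-(k * x : ℝ) * I)) (exp (-(k * x : ℝ) * I) * (-k * I)) x := by
    have h1 : HasDerivAt (fun x : ℝ => -((k * x : ℝ) : ℂ) * I) (-((k * 1 : ℝ) : ℂ) * I) x :=
      (((hasDerivAt_id x).const_mul k).ofReal_comp.neg).mul_const I
    refine h1.cexp.congr_deriv ?_
    simp
  refine (h1.mul h2).congr_deriv ?_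
  unfold Z
  push_cast
  ring

theorem Z_norm (N : ℕ) (k x : ℝ) : ‖Z N k x‖ = (D x / 16) ^ N := by
  unfold Z
  rw [norm_mul, norm_pow, pow_mul, g_norm_sq]
  have : ‖exp (-((k * x : ℝ) : ℂ) * I)‖ = 1 := by
    rw [← ofReal_neg]
    exact norm_exp_ofReal_mul_I _
  rw [this, mul_one]

theorem Z_cont (N : ℕ) (k : ℝ) : Continuous (Z N k) :=
  continuous_iff_continuousAt.2 fun x => (Z_deriv N k x).continuousAt

theorem D_div_nonneg (x : ℝ) : 0 ≤ D x / 16 := (div_pos (D_pos x) (by norm_num)).le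

theorem D_div_le_one (x : ℝ) : D x / 16 ≤ 1 := by
  rw [D_eq]
  nlinarith [sq_nonneg (1 - Real.cos x)]

theorem Z_norm_le (N : ℕ) (k x : ℝ) : ‖Z N k x‖ ≤ 1 := by
  rw [Z_norm]; exact pow_le_one₀ (D_div_nonneg x) (D_div_le_one x)

/-- middle range -/
theorem Z_mid (N : ℕ) (hN : 0 < N) (k δ : ℝ) (h0 : 0 < δ) (h1 : δ ≤ Real.pi / 2) :
    ‖∫ x in δ..(Real.pi / 2), Z N k x‖ ≤ 8 / Real.sqrt (N * δ / Real.pi) := by
  have hN' : (0 : ℝ) < N := by exact_mod_cast hN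
  refine vdc δ (Real.pi / 2) (N * δ / Real.pi) h1 (by positivity)
    (fun x => 2 * N * ((11 - 3 * Real.cos x ^ 2) / D x) - k)
    (fun x => 2 * N * (Real.sin x * (66 + 12 * Real.cos x + 18 * Real.cos x ^ 2) / D x ^ 2))
    (fun x => 2 * N * (-3 * Real.sin x * (1 - Real.cos x) / D x))
    (fun x => (D x / 16) ^ N) (Z N k) ?_ ?_ ?_ (Z_deriv N k) ?_ (Z_norm N k) ?_
  · intro x
    exact ((v_deriv x).const_mul _).sub_const _
  · intro x hx
    have hx0 : 0 ≤ x := h0.le.trans hx.1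
    have hc0 : 0 ≤ Real.cos x := Real.cos_nonneg_of_mem_Icc ⟨by linarith [Real.pi_pos], hx.2⟩
    have hs : 2 / Real.pi * x ≤ Real.sin x := Real.mul_le_sin hx0 hx.2
    have hD1 : D x ≤ 16 := by rw [D_eq]; nlinarith [sq_nonneg (1 - Real.cos x)]
    have hD0 := D_pos x
    have hpi := Real.pi_pos
    have hs' : 2 / Real.pi * δ ≤ Real.sin x := le_trans (by gcongr; exact hx.1) hs
    have hs0 : 0 ≤ Real.sin x := le_trans (by positivity) hs'
    have e1 : Real.sin x / 4 ≤ Real.sin x * (66 + 12 * Real.cos x + 18 * Real.cos x ^ 2) / D x ^ 2 := by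
      rw [div_le_div_iff₀ (by norm_num) (by positivity)]
      have : D x ^ 2 ≤ (66 + 12 * Real.cos x + 18 * Real.cos x ^ 2) * 4 := by nlinarith
      calc Real.sin x * D x ^ 2 ≤ Real.sin x * ((66 + 12 * Real.cos x + 18 * Real.cos x ^ 2) * 4) := by
            gcongr
        _ = _ := by ring
    calc (N : ℝ) * δ / Real.pi = 2 * N * ((2 / Real.pi * δ) / 4) := by ring
      _ ≤ 2 * N * (Real.sin x / 4) := by gcongr
      _ ≤ _ := by gcongr
  · intro x hx
    have hx0 : 0 ≤ x := h0.le.trans hx.1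
    have hs0 : 0 ≤ Real.sin x := Real.sin_nonneg_of_nonneg_of_le_pi hx0 (by linarith [hx.2, Real.pi_pos])
    have hc1 := Real.cos_le_one x
    have hD0 := D_pos x
    have : -3 * Real.sin x * (1 - Real.cos x) / D x ≤ 0 := by
      apply div_nonpos_of_nonpos_of_nonneg _ hD0.le
      nlinarith [mul_nonneg hs0 (sub_nonneg.2 hc1)]
    show 2 * (N : ℝ) * (-3 * Real.sin x * (1 - Real.cos x) / D x) ≤ 0
    nlinarith
  · intro x
    refine (logderiv_pow_real (D_deriv x) N).congr_deriv ?_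
    ring
  · intro x _
    exact pow_le_one₀ (D_div_nonneg x) (D_div_le_one x)

/-- tail range -/
theorem Z_tail (N : ℕ) (k : ℝ) :
    ‖∫ x in (Real.pi / 2)..Real.pi, Z N k x‖ ≤ 2 * (13 / 16) ^ N := by
  have h := intervalIntegral.norm_integral_le_of_norm_le_const (a := Real.pi / 2) (b := Real.pi)
    (C := (13 / 16) ^ N) (f := Z N k) (by
      intro x hx
      rw [Set.uIoc_of_le (by linarith [Real.pi_pos])] at hx
      rw [Z_norm]
      have hc : Real.cos x ≤ 0 := Real.cos_nonpos_of_pi_div_two_le_of_le hx.1.le (by linarith [hx.2, Real.pi_pos])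
      refine pow_le_pow_left₀ (D_div_nonneg x) ?_ N
      rw [D_eq]
      nlinarith [sq_nonneg (Real.cos x)])
  refine h.trans ?_
  have : |Real.pi - Real.pi / 2| ≤ 2 := by
    rw [abs_of_nonneg (by linarith [Real.pi_pos])]
    linarith [Real.pi_le_four]
  rw [mul_comm]
  gcongr

theorem Z_half (N : ℕ) (hN : 0 < N) (k δ : ℝ) (h0 : 0 < δ) (h1 : δ ≤ Real.pi / 2) :
    ‖∫ x in (0 : ℝ)..Real.pi, Z N k x‖ ≤ δ + 8 / Real.sqrt (N * δ / Real.pi) + 2 * (13 / 16) ^ N := by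
  have hi : ∀ a b : ℝ, IntervalIntegrable (Z N k) MeasureTheory.volume a b :=
    fun a b => (Z_cont N k).intervalIntegrable a b
  rw [← intervalIntegral.integral_add_adjacent_intervals (hi 0 δ) (hi δ Real.pi),
    ← intervalIntegral.integral_add_adjacent_intervals (hi δ (Real.pi / 2)) (hi (Real.pi / 2) Real.pi)]
  have ha : ‖∫ x in (0 : ℝ)..δ, Z N k x‖ ≤ δ := by
    have h := intervalIntegral.norm_integral_le_of_norm_le_const (a := 0) (b := δ)
      (C := 1) (f := Z N k) (fun x _ => Z_norm_le N k x)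
    rw [sub_zero, abs_of_pos h0, one_mul] at h
    exact h
  have hb := Z_mid N hN k δ h0 h1
  have hc := Z_tail N k
  calc _ ≤ ‖∫ x in (0 : ℝ)..δ, Z N k x‖ + ‖(∫ x in δ..(Real.pi / 2), Z N k x) + ∫ x in (Real.pi / 2)..Real.pi, Z N k x‖ := norm_add_le _ _
    _ ≤ ‖∫ x in (0 : ℝ)..δ, Z N k x‖ + (‖(∫ x in δ..(Real.pi / 2), Z N k x)‖ + ‖∫ x in (Real.pi / 2)..Real.pi, Z N k x‖) := by
        gcongr; exact norm_add_le _ _
    _ ≤ _ := by linarith

theorem Z_conj (N : ℕ) (k x : ℝ) : Z N k (-x) = (starRingEnd ℂ) (Z N k x) := by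
  unfold Z g
  rw [map_mul, map_pow, map_div₀, map_sub, map_add, map_mul, map_pow, ← exp_conj, ← exp_conj]
  simp [Complex.conj_ofNat]

theorem Z_full (N : ℕ) (hN : 0 < N) (k δ : ℝ) (h0 : 0 < δ) (h1 : δ ≤ Real.pi / 2) :
    ‖∫ x in (-Real.pi)..Real.pi, Z N k x‖ ≤
      2 * (δ + 8 / Real.sqrt (N * δ / Real.pi) + 2 * (13 / 16) ^ N) := by
  have hi : ∀ a b : ℝ, IntervalIntegrable (Z N k) MeasureTheory.volume a b :=
    fun a b => (Z_cont N k).intervalIntegrable a b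
  rw [← intervalIntegral.integral_add_adjacent_intervals (hi (-Real.pi) 0) (hi 0 Real.pi)]
  have h2 : ∫ x in (-Real.pi)..0, Z N k x = (starRingEnd ℂ) (∫ x in (0 : ℝ)..Real.pi, Z N k x) := by
    have e := intervalIntegral.integral_comp_neg (a := 0) (b := Real.pi) (fun x => Z N k x)
    rw [neg_zero] at e
    rw [← e, intervalIntegral.integral_of_le Real.pi_pos.le,
      intervalIntegral.integral_of_le Real.pi_pos.le, ← integral_conj]
    refine MeasureTheory.integral_congr_ae (Filter.Eventually.of_forall fun x => ?_)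
    exact Z_conj N k x
  rw [h2]
  refine (norm_add_le _ _).trans ?_
  rw [norm_conj]
  have := Z_half N hN k δ h0 h1
  linarith

end Pool.Agent.H8
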