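import Mathlib

set_option autoImplicit false

open Set Complex

namespace Pool.Agent.H8

theorem logderiv_pow_real {g : ℝ → ℝ} {h x : ℝ} (hg : HasDerivAt g (h * g x) x) (n : ℕ) :
    HasDerivAt (fun y => g y ^ n) ((n * h) * g x ^ n) x := by
  induction n with
  | zero => simpa using hasDerivAt_const x (1 : ℝ)
  | succ n ih =>
    have := ih.mul hg
    refine (this.congr_deriv ?_).congr_of_eventuallyEq (Filter.Eventually.of_forall fun y => ?_)
    · push_cast; ring
    · simp [pow_succ]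

theorem logderiv_pow_complex {g : ℝ → ℂ} {h : ℂ} {x : ℝ} (hg : HasDerivAt g (h * g x) x) (n : ℕ) :
    HasDerivAt (fun y => g y ^ n) ((n * h) * g x ^ n) x := by
  induction n with
  | zero => simpa using hasDerivAt_const x (1 : ℂ)
  | succ n ih =>
    have := ih.mul hg
    refine (this.congr_deriv ?_).congr_of_eventuallyEq (Filter.Eventually.of_forall fun y => ?_)
    · push_cast; ring
    · simp [pow_succ]

/-- smooth van der Corput estimate -/
theorem vdc (a b lam : ℝ) (hab : a ≤ b) (hl : 0 < lam) (v v' ρ R : ℝ → ℝ) (Z : ℝ → ℂ)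
    (hv : ∀ x, HasDerivAt v (v' x) x) (hv' : ∀ x ∈ Icc a b, lam ≤ v' x)
    (hρ : ∀ x ∈ Icc a b, ρ x ≤ 0)
    (hZ : ∀ x, HasDerivAt Z (((ρ x : ℂ) + v x * I) * Z x) x)
    (hR : ∀ x, HasDerivAt R (ρ x * R x) x)
    (hZR : ∀ x, ‖Z x‖ = R x) (hR1 : ∀ x ∈ Icc a b, R x ≤ 1) :
    ‖∫ x in a..b, Z x‖ ≤ 8 / Real.sqrt lam := by
  set κ := Real.sqrt lam with hκ
  have hκ0 : 0 < κ := Real.sqrt_pos.2 hl
  have hκ2 : κ ^ 2 = lam := Real.sq_sqrt hl.le
  have hZc : Continuous Z := continuous_iff_continuousAt.2 fun x => (hZ x).continuousAt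
  have hR0 : ∀ x, 0 ≤ R x := fun x => by rw [← hZR x]; exact norm_nonneg _
  have hden : ∀ x, 0 < v x ^ 2 + lam := fun x => by positivity
  -- W and its derivative
  let W : ℝ → ℝ := fun x => v x / (v x ^ 2 + lam)
  let W' : ℝ → ℝ := fun x => v' x * (lam - v x ^ 2) / (v x ^ 2 + lam) ^ 2
  have hW : ∀ x, HasDerivAt W (W' x) x := by
    intro x
    have h1 := (hv x).div (((hv x).pow 2).add_const lam) (hden x).ne'
    refine h1.congr_deriv ?_
    have := (hden x).ne'
    simp only [W']
    simp only [Pi.pow_apply]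
    congr 1
    push_cast
    ring
  have hWb : ∀ x, |W x| ≤ 1 / (2 * κ) := by
    intro x
    simp only [W]
    rw [abs_div, abs_of_pos (hden x), div_le_div_iff₀ (hden x) (by positivity)]
    rw [← hκ2]
    nlinarith [sq_nonneg (|v x| - κ), sq_abs (v x)]
  let G : ℝ → ℂ := fun x => -I * (W x : ℂ) * Z x
  have hG : ∀ x, HasDerivAt G (-I * (W' x : ℂ) * Z x + -I * (W x : ℂ) * (((ρ x : ℂ) + v x * I) * Z x)) x := by
    intro x
    exact (((hW x).ofReal_comp).const_mul (-I)).mul (hZ x)
  have hGb : ∀ x ∈ Icc a b, ‖G x‖ ≤ 1 / (2 * κ) := by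
    intro x hx
    simp only [G]
    rw [norm_mul, norm_mul, norm_neg, norm_I, one_mul, norm_real, hZR x, Real.norm_eq_abs]
    calc |W x| * R x ≤ 1 / (2 * κ) * 1 :=
          mul_le_mul (hWb x) (hR1 x hx) (hR0 x) (by positivity)
      _ = _ := mul_one _
  let f : ℝ → ℂ := fun x => (∫ t in a..x, Z t) - G x + G a
  let B : ℝ → ℝ := fun x => 2 / κ * (Real.arctan (v x / κ) - Real.arctan (v a / κ)) -
      1 / (2 * κ) * (R x - R a)
  have hf : ∀ x, HasDerivAt f (Z x - (-I * (W' x : ℂ) * Z x + -I * (W x : ℂ) * (((ρ x : ℂ) + v x * I) * Z x))) x := by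
    intro x
    have h1 : HasDerivAt (fun x => ∫ t in a..x, Z t) (Z x) x :=
      intervalIntegral.integral_hasDerivAt_right (hZc.intervalIntegrable _ _)
        (hZc.stronglyMeasurableAtFilter _ _) hZc.continuousAt
    exact (h1.sub (hG x)).add_const _
  have hB : ∀ x, HasDerivAt B (2 * v' x / (v x ^ 2 + lam) - 1 / (2 * κ) * (ρ x * R x)) x := by
    intro x
    have h1 := (((hv x).div_const κ).arctan.sub_const (Real.arctan (v a / κ))).const_mul (2 / κ)
    have h2 := ((hR x).sub_const (R a)).const_mul (1 / (2 * κ))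
    refine (h1.sub h2).congr_deriv ?_
    congr 1
    rw [← hκ2]
    have : v x ^ 2 + κ ^ 2 ≠ 0 := by positivity
    have : 1 + (v x / κ) ^ 2 ≠ 0 := by positivity
    field_simp
    ring
  have key : ∀ ⦃x⦄, x ∈ Icc a b → ‖f x‖ ≤ B x := by
    refine image_norm_le_of_norm_deriv_right_le_deriv_boundary
      (f' := fun x => Z x - (-I * (W' x : ℂ) * Z x + -I * (W x : ℂ) * (((ρ x : ℂ) + v x * I) * Z x)))
      (fun x _ => (hf x).continuousAt.continuousWithinAt) (fun x _ => (hf x).hasDerivWithinAt)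
      ?_ hB ?_
    · simp [f, B]
    · intro x hx
      have hx' : x ∈ Icc a b := ⟨hx.1, hx.2.le⟩
      have hd := hden x
      have e : Z x - (-I * (W' x : ℂ) * Z x + -I * (W x : ℂ) * (((ρ x : ℂ) + v x * I) * Z x)) =
          (((lam / (v x ^ 2 + lam) : ℝ) : ℂ) + I * ((W' x + W x * ρ x : ℝ) : ℂ)) * Z x := by
        have e1 : ((lam / (v x ^ 2 + lam) : ℝ) : ℂ) = 1 - (W x : ℂ) * (v x : ℂ) := by
          rw [← ofReal_mul, ← ofReal_one, ← ofReal_sub]
          congr 1
          simp only [W]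
          field_simp
          ring
        rw [e1]
        push_cast
        linear_combination ((W x : ℂ) * v x * Z x) * (I_mul_I)
      rw [e, norm_mul, hZR x]
      have hv1 := hv' x hx'
      have hρ1 := hρ x hx'
      have hR1x := hR1 x hx'
      have hR0x := hR0 x
      have hWbx := hWb x
      have n1 : ‖(((lam / (v x ^ 2 + lam) : ℝ) : ℂ) + I * ((W' x + W x * ρ x : ℝ) : ℂ))‖ ≤
          lam / (v x ^ 2 + lam) + (v' x / (v x ^ 2 + lam) + 1 / (2 * κ) * (-ρ x)) := by
        refine (norm_add_le _ _).trans ?_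
        refine add_le_add ?_ ?_
        · rw [norm_real, Real.norm_eq_abs, abs_of_nonneg (by positivity)]
        · rw [norm_mul, norm_I, one_mul, norm_real, Real.norm_eq_abs]
          refine (abs_add_le _ _).trans (add_le_add ?_ ?_)
          · simp only [W']
            rw [abs_div, abs_mul, abs_of_nonneg (hl.le.trans hv1), abs_of_pos (pow_pos hd 2),
              div_le_div_iff₀ (pow_pos hd 2) hd]
            have : |lam - v x ^ 2| ≤ v x ^ 2 + lam := by
              rw [abs_le]; constructor <;> nlinarith [sq_nonneg (v x)]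
            have hv0 : 0 ≤ v' x := hl.le.trans hv1
            calc v' x * |lam - v x ^ 2| * (v x ^ 2 + lam) ≤ v' x * (v x ^ 2 + lam) * (v x ^ 2 + lam) := by
                  gcongr
              _ = v' x * (v x ^ 2 + lam) ^ 2 := by ring
          · rw [abs_mul, abs_of_nonpos hρ1]
            exact mul_le_mul_of_nonneg_right hWbx (by linarith)
      have n2 : lam / (v x ^ 2 + lam) ≤ v' x / (v x ^ 2 + lam) := by gcongr
      have n3 : 0 ≤ v' x / (v x ^ 2 + lam) := div_nonneg (hl.le.trans hv1) hd.le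
      have n4 : 0 ≤ 1 / (2 * κ) * (-ρ x) := mul_nonneg (by positivity) (by linarith)
      calc _ ≤ (lam / (v x ^ 2 + lam) + (v' x / (v x ^ 2 + lam) + 1 / (2 * κ) * (-ρ x))) * R x := by
            gcongr
        _ ≤ (v' x / (v x ^ 2 + lam) + (v' x / (v x ^ 2 + lam) + 1 / (2 * κ) * (-ρ x))) * R x := by
            gcongr
        _ = (2 * (v' x / (v x ^ 2 + lam))) * R x + 1 / (2 * κ) * (-ρ x) * R x := by ring
        _ ≤ (2 * (v' x / (v x ^ 2 + lam))) * 1 + 1 / (2 * κ) * (-ρ x) * R x := by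
            gcongr
        _ = _ := by ring
  have hb := key (right_mem_Icc.2 hab)
  have hfb : (∫ x in a..b, Z x) = f b + G b - G a := by simp only [f]; ring
  have t1 : Real.arctan (v b / κ) - Real.arctan (v a / κ) ≤ Real.pi := by
    have := Real.arctan_lt_pi_div_two (v b / κ)
    have := Real.neg_pi_div_two_lt_arctan (v a / κ)
    linarith
  have hBb : B b ≤ 2 / κ * Real.pi + 1 / (2 * κ) * 1 := by
    simp only [B]
    have h1 : 2 / κ * (Real.arctan (v b / κ) - Real.arctan (v a / κ)) ≤ 2 / κ * Real.pi := by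
      gcongr
    have h2 : -(1 / (2 * κ) * (R b - R a)) ≤ 1 / (2 * κ) * 1 := by
      rw [← mul_neg]
      have := hR1 a (left_mem_Icc.2 hab)
      have := hR0 b
      gcongr
      linarith
    linarith
  have hGa := hGb a (left_mem_Icc.2 hab)
  have hGb' := hGb b (right_mem_Icc.2 hab)
  rw [hfb]
  calc ‖f b + G b - G a‖ ≤ ‖f b‖ + ‖G b‖ + ‖G a‖ :=
        (norm_sub_le _ _).trans (add_le_add (norm_add_le _ _) le_rfl)
    _ ≤ (2 / κ * Real.pi + 1 / (2 * κ) * 1) + 1 / (2 * κ) + 1 / (2 * κ) := by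
        linarith
    _ = (2 * Real.pi + 3 / 2) / κ := by field_simp; ring
    _ ≤ 8 / κ := by
        gcongr
        have := Real.pi_lt_d2
        linarith

end Pool.Agent.H8
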