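import Mathlib

set_option autoImplicit false

namespace Pool.Agent.H8

open Metric Filter Topology RealInnerProductSpace

section
variable {E : Type*} [NormedAddCommGroup E] [InnerProductSpace ℝ E]

theorem exists_proj [FiniteDimensional ℝ E] (K : Set E) (hK : IsClosed K) (hc : Convex ℝ K)
    (hn : K.Nonempty) :
    ∃ P : E → E, (∀ x, P x ∈ K) ∧ (∀ x, infDist x K = ‖x - P x‖) ∧
      (∀ x, ∀ w ∈ K, inner ℝ (x - P x) (w - P x) ≤ 0) := by
  have h : ∀ x : E, ∃ p ∈ K, infDist x K = dist x p := fun x =>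
    hK.exists_infDist_eq_dist hn x
  choose P hP1 hP2 using h
  refine ⟨P, hP1, fun x => by rw [hP2 x, dist_eq_norm], fun x => ?_⟩
  rw [← norm_eq_iInf_iff_real_inner_le_zero hc (hP1 x), ← dist_eq_norm, ← hP2 x,
    infDist_eq_iInf]
  simp only [dist_eq_norm]

theorem distSq [FiniteDimensional ℝ E] (K : Set E) (hK : IsClosed K) (hc : Convex ℝ K)
    (hn : K.Nonempty) :
    ∃ g : E → E, (∀ x, HasFDerivAt (fun x => (infDist x K) ^ 2) (innerSL ℝ ((2 : ℝ) • g x)) x) ∧
      (∀ x y, ‖g x - g y‖ ≤ ‖x - y‖) := by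
  obtain ⟨P, hP1, hP2, hP3⟩ := exists_proj K hK hc hn
  -- firm nonexpansiveness
  have hfirm : ∀ x y, ‖P x - P y‖ ^ 2 ≤ inner ℝ (x - y) (P x - P y) := by
    intro x y
    have h1 := hP3 x (P y) (hP1 y)
    have h2 := hP3 y (P x) (hP1 x)
    have e : inner ℝ (x - y) (P x - P y) - ‖P x - P y‖ ^ 2
        = - (inner ℝ (x - P x) (P y - P x) + inner ℝ (y - P y) (P x - P y)) := by
      rw [← real_inner_self_eq_norm_sq]
      simp only [inner_sub_left, inner_sub_right]
      ring
    linarith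
  have hlip : ∀ x y, ‖(x - P x) - (y - P y)‖ ≤ ‖x - y‖ := by
    intro x y
    have h1 := hfirm x y
    have e : ‖(x - P x) - (y - P y)‖ ^ 2
        = ‖x - y‖ ^ 2 - 2 * inner ℝ (x - y) (P x - P y) + ‖P x - P y‖ ^ 2 := by
      have : (x - P x) - (y - P y) = (x - y) - (P x - P y) := by abel
      rw [this, norm_sub_sq_real]
    have h2 : 0 ≤ ‖P x - P y‖ ^ 2 := by positivity
    have h3 : ‖(x - P x) - (y - P y)‖ ^ 2 ≤ ‖x - y‖ ^ 2 := by linarith
    exact le_of_sq_le_sq h3 (norm_nonneg _)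
  have hup : ∀ x y, (infDist y K) ^ 2 ≤ (infDist x K) ^ 2 + 2 * inner ℝ (x - P x) (y - x)
      + ‖y - x‖ ^ 2 := by
    intro x y
    have h1 : infDist y K ≤ ‖y - P x‖ := by
      rw [← dist_eq_norm]; exact infDist_le_dist_of_mem (hP1 x)
    have h2 : (infDist y K) ^ 2 ≤ ‖y - P x‖ ^ 2 := by
      gcongr
      exact infDist_nonneg
    have e : ‖y - P x‖ ^ 2 = ‖x - P x‖ ^ 2 + 2 * inner ℝ (x - P x) (y - x) + ‖y - x‖ ^ 2 := by
      have : y - P x = (x - P x) + (y - x) := by abel
      rw [this, norm_add_sq_real]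
    rw [hP2 x]
    linarith
  refine ⟨fun x => x - P x, fun x => ?_, hlip⟩
  have hlow : ∀ y, (infDist x K) ^ 2 + 2 * inner ℝ (x - P x) (y - x) - ‖y - x‖ ^ 2
      ≤ (infDist y K) ^ 2 := by
    intro y
    have h1 := hup y x
    have h2 : 0 ≤ inner ℝ ((y - P y) - (x - P x)) (y - x) := by
      have e : inner ℝ ((y - P y) - (x - P x)) (y - x)
          = ‖y - x‖ ^ 2 - inner ℝ (y - x) (P y - P x) := by
        have : (y - P y) - (x - P x) = (y - x) - (P y - P x) := by abel
        rw [this, inner_sub_left, real_inner_self_eq_norm_sq, real_inner_comm]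
      rw [e]
      have h3 := real_inner_le_norm (y - x) (P y - P x)
      have h4 := hfirm y x
      have h5 : ‖P y - P x‖ ≤ ‖y - x‖ := by
        by_contra hlt
        push Not at hlt
        have hpos : 0 < ‖P y - P x‖ := lt_of_le_of_lt (norm_nonneg _) hlt
        nlinarith
      nlinarith [norm_nonneg (y - x), norm_nonneg (P y - P x)]
    rw [inner_sub_left] at h2
    have e2 : inner ℝ (y - P y) (x - y) = - inner ℝ (y - P y) (y - x) := by
      rw [← inner_neg_right]; congr 1; abel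
    have e3 : ‖x - y‖ = ‖y - x‖ := norm_sub_rev _ _
    rw [e2, e3] at h1
    linarith
  rw [hasFDerivAt_iff_isLittleO]
  have hO : (fun y => (infDist y K) ^ 2 - (infDist x K) ^ 2
      - (innerSL ℝ ((2 : ℝ) • (x - P x))) (y - x)) =O[𝓝 x] fun y => ‖y - x‖ ^ 2 := by
    apply Asymptotics.IsBigO.of_bound 1
    refine Filter.Eventually.of_forall (fun y => ?_)
    rw [innerSL_apply_apply, inner_smul_left]
    simp only [conj_trivial, Real.norm_eq_abs, one_mul]
    rw [abs_of_nonneg (by positivity : (0 : ℝ) ≤ ‖y - x‖ ^ 2), abs_le]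
    constructor
    · have := hlow y; linarith
    · have := hup x y; linarith
  refine hO.trans_isLittleO ?_
  have := (Asymptotics.isLittleO_norm_pow_id (E' := E) one_lt_two).comp_tendsto
    (show Tendsto (fun y : E => y - x) (𝓝 x) (𝓝 0) by
      have : Tendsto (fun y : E => y - x) (𝓝 x) (𝓝 (x - x)) :=
        (continuous_id.sub continuous_const).tendsto x
      simpa using this)
  simpa [Function.comp_def] using this

/-- the profile -/
noncomputable def wfun (s t : ℝ) : ℝ := t ^ 2 - 2 * (max (t - s) 0) ^ 2 + (max (t - 2 * s) 0) ^ 2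

theorem wfun_mono {s : ℝ} (hs : 0 < s) {t u : ℝ} (ht : 0 ≤ t) (htu : t ≤ u) :
    wfun s t ≤ wfun s u ∧ wfun s u - wfun s t ≤ 2 * s * (u - t) := by
  unfold wfun
  rcases le_total t s with h1 | h1
  · rw [max_eq_right (by linarith : t - s ≤ 0), max_eq_right (by linarith : t - 2 * s ≤ 0)]
    rcases le_total u s with h2 | h2
    · rw [max_eq_right (by linarith : u - s ≤ 0), max_eq_right (by linarith : u - 2 * s ≤ 0)]
      constructor <;> nlinarith
    · rw [max_eq_left (by linarith : 0 ≤ u - s)]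
      rcases le_total u (2 * s) with h3 | h3
      · rw [max_eq_right (by linarith : u - 2 * s ≤ 0)]
        constructor <;> nlinarith
      · rw [max_eq_left (by linarith : 0 ≤ u - 2 * s)]
        constructor <;> nlinarith
  · rw [max_eq_left (by linarith : 0 ≤ t - s), max_eq_left (by linarith : 0 ≤ u - s)]
    rcases le_total t (2 * s) with h2 | h2
    · rw [max_eq_right (by linarith : t - 2 * s ≤ 0)]
      rcases le_total u (2 * s) with h3 | h3
      · rw [max_eq_right (by linarith : u - 2 * s ≤ 0)]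
        constructor <;> nlinarith
      · rw [max_eq_left (by linarith : 0 ≤ u - 2 * s)]
        constructor <;> nlinarith
    · rw [max_eq_left (by linarith : 0 ≤ t - 2 * s), max_eq_left (by linarith : 0 ≤ u - 2 * s)]
      constructor <;> nlinarith

theorem wfun_large {s : ℝ} (hs : 0 < s) {t : ℝ} (ht : 2 * s ≤ t) : wfun s t = 2 * s ^ 2 := by
  unfold wfun
  rw [max_eq_left (by linarith : 0 ≤ t - s), max_eq_left (by linarith : 0 ≤ t - 2 * s)]
  ring

theorem wfun_zero {s : ℝ} (hs : 0 < s) : wfun s 0 = 0 := by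
  unfold wfun
  rw [max_eq_right (by linarith : 0 - s ≤ 0), max_eq_right (by linarith : 0 - 2 * s ≤ 0)]
  ring

theorem wfun_small {s : ℝ} (hs : 0 < s) {t : ℝ} (ht : t ≤ s) : wfun s t = t ^ 2 := by
  unfold wfun
  rw [max_eq_right (by linarith : t - s ≤ 0), max_eq_right (by linarith : t - 2 * s ≤ 0)]
  ring

theorem wfun_bds {s : ℝ} (hs : 0 < s) {t : ℝ} (ht : 0 ≤ t) :
    0 ≤ wfun s t ∧ wfun s t ≤ 2 * s ^ 2 := by
  constructor
  · have := (wfun_mono hs le_rfl ht).1
    rwa [wfun_zero hs] at this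
  · have := (wfun_mono hs ht (le_max_left t (2 * s))).1
    rwa [wfun_large hs (le_max_right t (2 * s))] at this

theorem infDist_cthick (K : Set E) (hn : K.Nonempty) (s : ℝ) (hs : 0 ≤ s) (x : E) :
    infDist x (cthickening s K) = max (infDist x K - s) 0 := by
  unfold infDist
  rw [infEDist_cthickening]
  have hfin : infEDist x K ≠ ⊤ := infEDist_ne_top hn
  rcases le_total (ENNReal.ofReal s) (infEDist x K) with h | h
  · rw [ENNReal.toReal_sub_of_le h hfin, ENNReal.toReal_ofReal hs, max_eq_left]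
    have := (ENNReal.toReal_le_toReal ENNReal.ofReal_ne_top hfin).mpr h
    rw [ENNReal.toReal_ofReal hs] at this
    linarith
  · rw [tsub_eq_zero_of_le h, ENNReal.toReal_zero, max_eq_right]
    have := (ENNReal.toReal_le_toReal hfin ENNReal.ofReal_ne_top).mpr h
    rw [ENNReal.toReal_ofReal hs] at this
    linarith

/-- The bump built on the distance to `K`. -/
theorem Wprops [FiniteDimensional ℝ E] (K : Set E) (hK : IsClosed K) (hc : Convex ℝ K)
    (hn : K.Nonempty) (s : ℝ) (hs : 0 < s) :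
    Differentiable ℝ (fun x => wfun s (infDist x K)) ∧
    (∀ x, 0 ≤ wfun s (infDist x K) ∧ wfun s (infDist x K) ≤ 2 * s ^ 2) ∧
    (∀ x y, |wfun s (infDist x K) - wfun s (infDist y K)| ≤ 2 * s * ‖x - y‖) ∧
    (∀ x, ‖fderiv ℝ (fun x => wfun s (infDist x K)) x‖ ≤ 2 * s) ∧
    (∀ x y, ‖fderiv ℝ (fun x => wfun s (infDist x K)) x
      - fderiv ℝ (fun x => wfun s (infDist x K)) y‖ ≤ 8 * ‖x - y‖) := by
  obtain ⟨g0, hg0, hl0⟩ := distSq K hK hc hn
  obtain ⟨g1, hg1, hl1⟩ := distSq (cthickening s K) isClosed_cthickening (hc.cthickening s)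
    (hn.mono (self_subset_cthickening K))
  obtain ⟨g2, hg2, hl2⟩ := distSq (cthickening (2 * s) K) isClosed_cthickening
    (hc.cthickening (2 * s)) (hn.mono (self_subset_cthickening K))
  have hder : ∀ x, HasFDerivAt (fun x => wfun s (infDist x K))
      (innerSL ℝ ((2 : ℝ) • g0 x) - (2 : ℝ) • innerSL ℝ ((2 : ℝ) • g1 x)
        + innerSL ℝ ((2 : ℝ) • g2 x)) x := by
    intro x
    have h := ((hg0 x).sub ((hg1 x).const_smul (2 : ℝ))).add (hg2 x)
    refine h.congr_of_eventuallyEq (Filter.Eventually.of_forall (fun y => ?_))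
    simp only [wfun, Pi.add_apply, Pi.sub_apply, Pi.smul_apply, smul_eq_mul]
    rw [infDist_cthick K hn s hs.le, infDist_cthick K hn (2 * s) (by linarith)]
  have hbd : ∀ x, 0 ≤ wfun s (infDist x K) ∧ wfun s (infDist x K) ≤ 2 * s ^ 2 :=
    fun x => wfun_bds hs infDist_nonneg
  have hL : ∀ x y, |wfun s (infDist x K) - wfun s (infDist y K)| ≤ 2 * s * ‖x - y‖ := by
    have key : ∀ x y, infDist x K ≤ infDist y K →
        |wfun s (infDist x K) - wfun s (infDist y K)| ≤ 2 * s * ‖x - y‖ := by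
      intro x y h
      have h1 := wfun_mono hs infDist_nonneg h
      rw [abs_sub_comm, abs_of_nonneg (by linarith [h1.1])]
      have h2 : infDist y K ≤ infDist x K + dist y x := infDist_le_infDist_add_dist
      rw [dist_comm, dist_eq_norm] at h2
      nlinarith [h1.2]
    intro x y
    rcases le_total (infDist x K) (infDist y K) with h | h
    · exact key x y h
    · rw [abs_sub_comm, norm_sub_rev]; exact key y x h
  refine ⟨fun x => (hder x).differentiableAt, hbd, hL, ?_, ?_⟩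
  · intro x
    refine (hder x).differentiableAt.hasFDerivAt.le_of_lip' (by positivity)
      (Filter.Eventually.of_forall (fun y => ?_))
    exact hL y x
  · intro x y
    rw [(hder x).fderiv, (hder y).fderiv]
    have e : (innerSL ℝ ((2 : ℝ) • g0 x) - (2 : ℝ) • innerSL ℝ ((2 : ℝ) • g1 x)
        + innerSL ℝ ((2 : ℝ) • g2 x)) - (innerSL ℝ ((2 : ℝ) • g0 y)
        - (2 : ℝ) • innerSL ℝ ((2 : ℝ) • g1 y) + innerSL ℝ ((2 : ℝ) • g2 y))
        = innerSL ℝ ((2 : ℝ) • (g0 x - g0 y)) - (2 : ℝ) • innerSL ℝ ((2 : ℝ) • (g1 x - g1 y))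
          + innerSL ℝ ((2 : ℝ) • (g2 x - g2 y)) := by
      simp only [smul_sub, map_sub]
      abel
    rw [e]
    have n0 : ∀ v : E, ‖innerSL ℝ ((2 : ℝ) • v)‖ = 2 * ‖v‖ := by
      intro v
      rw [innerSL_apply_norm, norm_smul]; norm_num
    calc _ ≤ ‖innerSL ℝ ((2 : ℝ) • (g0 x - g0 y)) - (2 : ℝ) • innerSL ℝ ((2 : ℝ) • (g1 x - g1 y))‖
          + ‖innerSL ℝ ((2 : ℝ) • (g2 x - g2 y))‖ := norm_add_le _ _
      _ ≤ (‖innerSL ℝ ((2 : ℝ) • (g0 x - g0 y))‖ + ‖(2 : ℝ) • innerSL ℝ ((2 : ℝ) • (g1 x - g1 y))‖)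
          + ‖innerSL ℝ ((2 : ℝ) • (g2 x - g2 y))‖ := by gcongr; exact norm_sub_le _ _
      _ ≤ 8 * ‖x - y‖ := by
        rw [norm_smul, n0, n0, n0]
        norm_num
        have := hl0 x y
        have := hl1 x y
        have := hl2 x y
        linarith
end

end Pool.Agent.H8
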