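import Mathlib

set_option autoImplicit false

namespace Pool.Agent.H8

open MeasureTheory Metric Filter Topology

/-- Mollification preserving sup bound, Lipschitz bound and gradient-Lipschitz bound. -/
theorem mollify {E : Type*} [NormedAddCommGroup E] [InnerProductSpace ℝ E]
    [FiniteDimensional ℝ E]
    (F : E → ℝ) (A L M δ : ℝ) (hδ : 0 < δ) (hL0 : 0 ≤ L) (hd : Differentiable ℝ F)
    (hA : ∀ x, |F x| ≤ A) (hL : ∀ x y, |F x - F y| ≤ L * ‖x - y‖)
    (hM : ∀ x y, ‖fderiv ℝ F x - fderiv ℝ F y‖ ≤ M * ‖x - y‖) :
    ∃ f : E → ℝ, ContDiff ℝ 2 f ∧ (∀ x, |f x| ≤ A) ∧ (∀ x y, |f x - f y| ≤ L * ‖x - y‖) ∧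
      (∀ x y, ‖fderiv ℝ f x - fderiv ℝ f y‖ ≤ M * ‖x - y‖) ∧
      (∀ x, |f x - F x| ≤ L * δ) ∧
      (∀ x, (∀ y, ‖y - x‖ < δ → F y = 0) → f x = 0) := by
  borelize E
  let μ : Measure E := Measure.addHaar
  let φ : ContDiffBump (0 : E) := ⟨δ / 2, δ, by positivity, by linarith⟩
  have hφc : Continuous (φ.normed μ) := φ.continuous_normed
  have hφs : HasCompactSupport (φ.normed μ) := φ.hasCompactSupport_normed
  have hφ1 : ∫ t, φ.normed μ t ∂μ = 1 := φ.integral_normed
  have hφ0 : ∀ t, 0 ≤ φ.normed μ t := fun t => φ.nonneg_normed t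
  have hφz : ∀ t, δ ≤ ‖t‖ → φ.normed μ t = 0 := by
    intro t ht
    by_contra hne
    have : t ∈ Function.support (φ.normed μ) := hne
    rw [φ.support_normed_eq] at this
    have h2 : ‖t‖ < δ := by simpa [φ] using this
    linarith
  -- the averaging functional
  have hint : ∀ G : E → ℝ, Continuous G → Integrable (fun t => φ.normed μ t * G t) μ := by
    intro G hG
    exact (hφc.mul hG).integrable_of_hasCompactSupport hφs.mul_right
  have hbd : ∀ (G : E → ℝ) (C : ℝ), (∀ t, ‖t‖ < δ → |G t| ≤ C) →
      |∫ t, φ.normed μ t * G t ∂μ| ≤ C := by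
    intro G C hC
    have h1 : ‖∫ t, φ.normed μ t * G t ∂μ‖ ≤ ∫ t, φ.normed μ t * C ∂μ := by
      apply norm_integral_le_of_norm_le
      · exact hint (fun _ => C) continuous_const
      · refine Filter.Eventually.of_forall (fun t => ?_)
        rw [Real.norm_eq_abs, abs_mul, abs_of_nonneg (hφ0 t)]
        by_cases ht : ‖t‖ < δ
        · exact mul_le_mul_of_nonneg_left (hC t ht) (hφ0 t)
        · rw [hφz t (not_lt.mp ht)]; simp
    rw [integral_mul_const, hφ1, one_mul, Real.norm_eq_abs] at h1
    exact h1
  have hFc : Continuous F := hd.continuous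
  have hFx : ∀ x : E, Continuous (fun t => F (x - t)) := fun x =>
    hFc.comp (continuous_const.sub continuous_id)
  set f : E → ℝ := fun x => ∫ t, φ.normed μ t * F (x - t) ∂μ with hf
  have hcd : ContDiff ℝ 2 f := by
    have h1 := hφs.contDiff_convolution_left (n := 2) (μ := μ) (ContinuousLinearMap.lsmul ℝ ℝ)
      (g := F) (φ.contDiff_normed) hFc.locallyIntegrable
    have h2 : f = convolution (φ.normed μ) F (ContinuousLinearMap.lsmul ℝ ℝ) μ := by
      funext x
      simp [hf, convolution, ContinuousLinearMap.lsmul_apply]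
    rw [h2]
    exact_mod_cast h1
  refine ⟨f, hcd, ?_, ?_, ?_, ?_, ?_⟩
  · intro x
    exact hbd _ _ (fun t _ => hA _)
  · intro x y
    have h : f x - f y = ∫ t, φ.normed μ t * (F (x - t) - F (y - t)) ∂μ := by
      simp only [hf]
      rw [← integral_sub (hint _ (hFx x)) (hint _ (hFx y))]
      congr 1; funext t; ring
    rw [h]
    apply hbd
    intro t _
    have := hL (x - t) (y - t)
    simpa using this
  · intro x y
    have hC0 : 0 ≤ M * ‖x - y‖ := le_trans (norm_nonneg _) (hM x y)
    -- second difference of F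
    have hF2 : ∀ h t, |F (x + h - t) - F (x - t) - (F (y + h - t) - F (y - t))|
        ≤ M * ‖x - y‖ * ‖h‖ := by
      intro h t
      let G : E → ℝ := fun z => F (z + (x - y)) - F z
      have hG : ∀ z, HasFDerivAt G (fderiv ℝ F (z + (x - y)) - fderiv ℝ F z) z := by
        intro z
        have h1 : HasFDerivAt (fun z => F (z + (x - y))) (fderiv ℝ F (z + (x - y))) z := by
          rw [hasFDerivAt_comp_add_right]
          exact (hd _).hasFDerivAt
        exact h1.sub (hd z).hasFDerivAt
      have hconv := (convex_univ : Convex ℝ (Set.univ : Set E)).norm_image_sub_le_of_norm_hasFDerivWithin_le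
        (f := G) (f' := fun z => fderiv ℝ F (z + (x - y)) - fderiv ℝ F z)
        (C := M * ‖x - y‖) (fun z _ => (hG z).hasFDerivWithinAt)
        (fun z _ => by
          have := hM (z + (x - y)) z
          simpa using this) (Set.mem_univ (y - t)) (Set.mem_univ (y + h - t))
      have e1 : G (y + h - t) - G (y - t)
          = F (x + h - t) - F (x - t) - (F (y + h - t) - F (y - t)) := by
        simp only [G]
        have a1 : y + h - t + (x - y) = x + h - t := by abel
        have a2 : y - t + (x - y) = x - t := by abel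
        rw [a1, a2]; ring
      have e2 : y + h - t - (y - t) = h := by abel
      rw [e1, e2, Real.norm_eq_abs] at hconv
      exact hconv
    have hf2 : ∀ h, |f (x + h) - f x - (f (y + h) - f y)| ≤ M * ‖x - y‖ * ‖h‖ := by
      intro h
      have e : f (x + h) - f x - (f (y + h) - f y)
          = ∫ t, φ.normed μ t * (F (x + h - t) - F (x - t) - (F (y + h - t) - F (y - t))) ∂μ := by
        have hsub : ∀ G H : E → ℝ, Continuous G → Continuous H →
            (∫ t, φ.normed μ t * G t ∂μ) - ∫ t, φ.normed μ t * H t ∂μ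
              = ∫ t, φ.normed μ t * (G t - H t) ∂μ := by
          intro G H hG hH
          rw [← integral_sub (hint _ hG) (hint _ hH)]
          congr 1; funext t; ring
        simp only [hf]
        rw [hsub _ _ (hFx (x + h)) (hFx x), hsub _ _ (hFx (y + h)) (hFx y),
          hsub (fun t => F (x + h - t) - F (x - t)) (fun t => F (y + h - t) - F (y - t))
            ((hFx (x + h)).sub (hFx x)) ((hFx (y + h)).sub (hFx y))]
      rw [e]
      exact hbd _ _ (fun t _ => hF2 h t)
    have hfd : Differentiable ℝ f := hcd.differentiable (by norm_num)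
    let g : E → ℝ := fun z => f (z + (x - y)) - f z
    have hg : HasFDerivAt g (fderiv ℝ f x - fderiv ℝ f y) y := by
      have h1 : HasFDerivAt (fun z => f (z + (x - y))) (fderiv ℝ f x) y := by
        rw [hasFDerivAt_comp_add_right]
        have : y + (x - y) = x := by abel
        rw [this]
        exact (hfd _).hasFDerivAt
      exact h1.sub (hfd y).hasFDerivAt
    refine hg.le_of_lip' hC0 (Filter.Eventually.of_forall (fun z => ?_))
    have := hf2 (z - y)
    simp only [g, Real.norm_eq_abs]
    have a1 : x + (z - y) = z + (x - y) := by abel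
    have a2 : y + (z - y) = z := by abel
    have a3 : y + (x - y) = x := by abel
    rw [a1, a2] at this
    rw [a3]
    convert this using 2
    ring
  · intro x
    have h : f x - F x = ∫ t, φ.normed μ t * (F (x - t) - F x) ∂μ := by
      have h1 : F x = ∫ t, φ.normed μ t * F x ∂μ := by
        rw [integral_mul_const, hφ1, one_mul]
      conv_lhs => rw [h1]
      simp only [hf]
      rw [← integral_sub (hint _ (hFx x)) (hint _ continuous_const)]
      congr 1; funext t; ring
    rw [h]
    apply hbd
    intro t ht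
    have h2 := hL (x - t) x
    have h3 : ‖x - t - x‖ = ‖t‖ := by
      rw [show x - t - x = -t by abel, norm_neg]
    rw [h3] at h2
    exact h2.trans (mul_le_mul_of_nonneg_left ht.le hL0)
  · intro x hx
    have : |f x| ≤ 0 := by
      apply hbd
      intro t ht
      rw [hx (x - t) (by rw [show x - t - x = -t by abel, norm_neg]; exact ht)]
      simp
    exact abs_nonpos_iff.mp this

end Pool.Agent.H8
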