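import Mathlib
import Pool.Agent.H8.Mollify
import Pool.Agent.H8.DistSq

set_option autoImplicit false

namespace Pool.Agent.H8

open Metric Filter Topology

theorem geo (d : ℕ) (a b : ℝ) (ha : 0 < a) (hab : a ≤ b)
    (P : Finset (EuclideanSpace ℝ (Fin d))) :
    ∃ f : EuclideanSpace ℝ (Fin d) → ℝ, ContDiff ℝ 2 f ∧ (∀ y ∈ P, f y = 0) ∧
      (∀ x, |f x| ≤ 4 * a ^ 2 * b ^ 2) ∧
      (∀ x y, |f x - f y| ≤ 4 * a * b * (a + b) * ‖x - y‖) ∧
      (∀ x y, ‖fderiv ℝ f x - fderiv ℝ f y‖
        ≤ (8 * a * b + 16 * a ^ 2 + 16 * b ^ 2) * ‖x - y‖) ∧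
      (∀ x, 4 * a ≤ ‖x‖ → ‖x‖ ≤ b → (∀ y ∈ P, ‖y‖ ≤ 3 * b → inner ℝ x y ≤ ‖x‖ ^ 2 / 2) →
        a ^ 2 * b ^ 2 / 2 ≤ f x) := by
  have hb : 0 < b := lt_of_lt_of_le ha hab
  let E := EuclideanSpace ℝ (Fin d)
  -- the radius
  obtain ⟨δ, hδ, hδa, hδb, hδc⟩ : ∃ δ : ℝ, 0 < δ ∧ δ ≤ a ∧ δ ≤ b ∧
      4 * a * b * (a + b) * δ ≤ a ^ 2 * b ^ 2 / 2 := by
    refine ⟨min a (min b (a * b / (8 * (a + b)))), ?_, min_le_left _ _,
      (min_le_right _ _).trans (min_le_left _ _), ?_⟩
    · have : 0 < a * b / (8 * (a + b)) := by positivity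
      exact lt_min ha (lt_min hb this)
    · have h1 : min a (min b (a * b / (8 * (a + b)))) ≤ a * b / (8 * (a + b)) :=
        (min_le_right _ _).trans (min_le_right _ _)
      calc 4 * a * b * (a + b) * min a (min b (a * b / (8 * (a + b))))
          ≤ 4 * a * b * (a + b) * (a * b / (8 * (a + b))) := by gcongr
        _ = a ^ 2 * b ^ 2 / 2 := by
          field_simp
          ring
  -- the convex set
  let S : Set E := insert 0 {y | y ∈ P ∧ ‖y‖ ≤ 3 * b}
  have hSfin : S.Finite := by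
    refine Set.Finite.insert _ (Set.Finite.subset P.finite_toSet ?_)
    intro y hy
    exact hy.1
  let H : Set E := convexHull ℝ S
  have hHc : IsCompact H := hSfin.isCompact_convexHull ℝ
  have hHn : H.Nonempty := ⟨0, subset_convexHull ℝ S (Set.mem_insert _ _)⟩
  let K : Set E := cthickening δ H
  have hKcl : IsClosed K := isClosed_cthickening
  have hKc : Convex ℝ K := (convex_convexHull ℝ S).cthickening δ
  have hKn : K.Nonempty := hHn.mono (self_subset_cthickening H)
  have h0cl : IsClosed ({0} : Set E) := isClosed_singleton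
  obtain ⟨dU, bU, lU, nU, gU⟩ := Wprops K hKcl hKc hKn a ha
  obtain ⟨dV, bV, lV, nV, gV⟩ := Wprops ({0} : Set E) h0cl (convex_singleton _)
    (Set.singleton_nonempty _) b hb
  set U : E → ℝ := fun x => wfun a (infDist x K) with hU
  set V : E → ℝ := fun x => wfun b (infDist x ({0} : Set E)) with hV
  have hid0 : ∀ x : E, infDist x ({0} : Set E) = ‖x‖ := by
    intro x; rw [infDist_singleton, dist_zero_right]
  let F : E → ℝ := fun x => U x * (2 * b ^ 2 - V x)
  have hV2 : ∀ x, 0 ≤ 2 * b ^ 2 - V x ∧ 2 * b ^ 2 - V x ≤ 2 * b ^ 2 := by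
    intro x; have := bV x; constructor <;> linarith [this.1, this.2]
  have hFd : Differentiable ℝ F := dU.mul ((differentiable_const _).sub dV)
  have hFA : ∀ x, |F x| ≤ 4 * a ^ 2 * b ^ 2 := by
    intro x
    have h1 := bU x
    have h2 := hV2 x
    rw [abs_of_nonneg (mul_nonneg h1.1 h2.1)]
    calc U x * (2 * b ^ 2 - V x) ≤ (2 * a ^ 2) * (2 * b ^ 2) :=
          mul_le_mul h1.2 h2.2 h2.1 (by positivity)
      _ = 4 * a ^ 2 * b ^ 2 := by ring
  have hFL : ∀ x y, |F x - F y| ≤ 4 * a * b * (a + b) * ‖x - y‖ := by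
    intro x y
    have e : F x - F y = (U x - U y) * (2 * b ^ 2 - V x) - U y * (V x - V y) := by
      simp only [F]; ring
    rw [e]
    calc |(U x - U y) * (2 * b ^ 2 - V x) - U y * (V x - V y)|
        ≤ |(U x - U y) * (2 * b ^ 2 - V x)| + |U y * (V x - V y)| := abs_sub _ _
      _ = |U x - U y| * (2 * b ^ 2 - V x) + U y * |V x - V y| := by
        rw [abs_mul, abs_mul, abs_of_nonneg (hV2 x).1, abs_of_nonneg (bU y).1]
      _ ≤ (2 * a * ‖x - y‖) * (2 * b ^ 2) + (2 * a ^ 2) * (2 * b * ‖x - y‖) := by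
        have i1 := lU x y
        have i2 := lV x y
        have i3 := (hV2 x).2
        have i4 := (bU y).2
        apply add_le_add
        · exact mul_le_mul i1 i3 (hV2 x).1 (by positivity)
        · exact mul_le_mul i4 i2 (abs_nonneg _) (by positivity)
      _ = 4 * a * b * (a + b) * ‖x - y‖ := by ring
  have hFder : ∀ x, fderiv ℝ F x = (2 * b ^ 2 - V x) • fderiv ℝ U x - U x • fderiv ℝ V x := by
    intro x
    have h1 : HasFDerivAt U (fderiv ℝ U x) x := (dU x).hasFDerivAt
    have h2 : HasFDerivAt V (fderiv ℝ V x) x := (dV x).hasFDerivAt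
    have h3 := h1.mul (h2.const_sub (2 * b ^ 2))
    have h4 := h3.fderiv
    rw [show F = U * fun x => 2 * b ^ 2 - V x from rfl, h4]
    simp only [smul_neg]
    abel
  have hFM : ∀ x y, ‖fderiv ℝ F x - fderiv ℝ F y‖
      ≤ (8 * a * b + 16 * a ^ 2 + 16 * b ^ 2) * ‖x - y‖ := by
    intro x y
    rw [hFder, hFder]
    have e : ((2 * b ^ 2 - V x) • fderiv ℝ U x - U x • fderiv ℝ V x)
        - ((2 * b ^ 2 - V y) • fderiv ℝ U y - U y • fderiv ℝ V y)
        = (2 * b ^ 2 - V x) • (fderiv ℝ U x - fderiv ℝ U y) - (V x - V y) • fderiv ℝ U y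
          - ((U x - U y) • fderiv ℝ V x + U y • (fderiv ℝ V x - fderiv ℝ V y)) := by
      module
    rw [e]
    have t1 : ‖(2 * b ^ 2 - V x) • (fderiv ℝ U x - fderiv ℝ U y)‖ ≤ (2 * b ^ 2) * (8 * ‖x - y‖) := by
      rw [norm_smul, Real.norm_eq_abs, abs_of_nonneg (hV2 x).1]
      exact mul_le_mul (hV2 x).2 (gU x y) (norm_nonneg _) (by positivity)
    have t2 : ‖(V x - V y) • fderiv ℝ U y‖ ≤ (2 * b * ‖x - y‖) * (2 * a) := by
      rw [norm_smul, Real.norm_eq_abs]
      exact mul_le_mul (lV x y) (nU y) (norm_nonneg _) (by positivity)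
    have t3 : ‖(U x - U y) • fderiv ℝ V x‖ ≤ (2 * a * ‖x - y‖) * (2 * b) := by
      rw [norm_smul, Real.norm_eq_abs]
      exact mul_le_mul (lU x y) (nV x) (norm_nonneg _) (by positivity)
    have t4 : ‖U y • (fderiv ℝ V x - fderiv ℝ V y)‖ ≤ (2 * a ^ 2) * (8 * ‖x - y‖) := by
      rw [norm_smul, Real.norm_eq_abs, abs_of_nonneg (bU y).1]
      exact mul_le_mul (bU y).2 (gV x y) (norm_nonneg _) (by positivity)
    have n1 := norm_sub_le ((2 * b ^ 2 - V x) • (fderiv ℝ U x - fderiv ℝ U y)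
      - (V x - V y) • fderiv ℝ U y)
      ((U x - U y) • fderiv ℝ V x + U y • (fderiv ℝ V x - fderiv ℝ V y))
    have n2 := norm_sub_le ((2 * b ^ 2 - V x) • (fderiv ℝ U x - fderiv ℝ U y))
      ((V x - V y) • fderiv ℝ U y)
    have n3 := norm_add_le ((U x - U y) • fderiv ℝ V x)
      (U y • (fderiv ℝ V x - fderiv ℝ V y))
    linarith
  obtain ⟨f, hf1, hf2, hf3, hf4, hf5, hf6⟩ := mollify F (4 * a ^ 2 * b ^ 2)
    (4 * a * b * (a + b)) (8 * a * b + 16 * a ^ 2 + 16 * b ^ 2) δ hδ (by positivity)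
    hFd hFA hFL hFM
  refine ⟨f, hf1, ?_, hf2, hf3, hf4, ?_⟩
  · intro y hy
    apply hf6
    intro z hz
    by_cases hyb : ‖y‖ ≤ 3 * b
    · -- z is in K
      have hyH : y ∈ H := subset_convexHull ℝ S (Set.mem_insert_of_mem _ ⟨hy, hyb⟩)
      have hzK : z ∈ K := by
        apply mem_cthickening_of_dist_le z y δ H hyH
        rw [dist_eq_norm]; exact hz.le
      have : infDist z K = 0 := infDist_zero_of_mem hzK
      simp only [F, hU, this, wfun_zero ha, zero_mul]
    · push Not at hyb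
      have h1 : 2 * b ≤ ‖z‖ := by
        have := norm_sub_norm_le y z
        rw [norm_sub_rev] at this
        linarith
      have : V z = 2 * b ^ 2 := by
        simp only [hV, hid0]
        exact wfun_large hb h1
      simp only [F, this, sub_self, mul_zero]
  · intro x hx1 hx2 hx3
    have hVx : V x ≤ b ^ 2 := by
      simp only [hV, hid0]
      rw [wfun_small hb hx2]
      gcongr
    -- distance to the hull
    have hdH : 2 * a ≤ infDist x H := by
      rw [le_infDist hHn]
      intro y hy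
      have hin : inner ℝ x y ≤ ‖x‖ ^ 2 / 2 := by
        have hsub : H ⊆ {y : E | inner ℝ x y ≤ ‖x‖ ^ 2 / 2} := by
          apply convexHull_min
          · intro z hz
            rcases hz with hz | hz
            · rw [hz]
              simp only [Set.mem_setOf_eq, inner_zero_right]
              positivity
            · exact hx3 z hz.1 hz.2
          · exact convex_halfSpace_le (f := fun y : E => inner ℝ x y)
              (IsLinearMap.mk (fun u v => inner_add_right _ _ _)
                (fun c u => by simp [inner_smul_right])) _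
        exact hsub hy
      have h1 : ‖x‖ ^ 2 / 2 ≤ inner ℝ x (x - y) := by
        rw [inner_sub_right, real_inner_self_eq_norm_sq]; linarith
      have h2 := real_inner_le_norm x (x - y)
      have hxpos : 0 < ‖x‖ := by linarith
      have h3 : ‖x‖ / 2 ≤ ‖x - y‖ := by
        by_contra hlt
        push Not at hlt
        nlinarith
      rw [dist_eq_norm]
      linarith
    have hdK : a ≤ infDist x K ∧ 2 * a - δ ≤ infDist x K := by
      have : infDist x K = max (infDist x H - δ) 0 := infDist_cthick H hHn δ hδ.le x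
      have h2 := le_max_left (infDist x H - δ) 0
      constructor <;> linarith
    have hUx : a ^ 2 ≤ U x := by
      have h1 := (wfun_mono ha ha.le hdK.1).1
      rw [wfun_small ha le_rfl] at h1
      exact h1
    have hFx : a ^ 2 * b ^ 2 ≤ F x := by
      have : b ^ 2 ≤ 2 * b ^ 2 - V x := by linarith
      exact mul_le_mul hUx this (by positivity) ((bU x).1)
    have h5 := (abs_le.mp (hf5 x)).1
    linarith

end Pool.Agent.H8
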