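import Pool.Agent.H8.Multi

set_option autoImplicit false

open MvPolynomial

namespace Pool.Agent.H8

/-- `P = (1 - X₁)^5` -/
noncomputable def PP : MvPolynomial (Fin 18) ℝ := (1 - X 1) ^ 5

/-- `Φ = ∏_{j ≥ 1} ψ(X_j)` -/
noncomputable def Phi : MvPolynomial (Fin 18) ℝ := ∏ i : Fin 17, emb i.succ psi

/-- `Q = 1 - X₀ Φ` -/
noncomputable def QQ : MvPolynomial (Fin 18) ℝ := 1 - X 0 * Phi

/-- factors of the `N`-th slice -/
noncomputable def w (N : ℕ) : Fin 18 → Polynomial ℝ :=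
  Fin.cons (Polynomial.X ^ N) (Fin.cons ((1 - Polynomial.X) ^ 5 * psi ^ N) fun _ => psi ^ N)

theorem T_eq (N : ℕ) : PP * (X 0 * Phi) ^ N = ∏ j, emb j (w N j) := by
  rw [Fin.prod_univ_succ, Fin.prod_univ_succ]
  simp only [w, Fin.cons_zero, Fin.cons_succ]
  unfold PP Phi
  rw [Fin.prod_univ_succ]
  have e1 : (Fin.succ 0 : Fin 18) = 1 := rfl
  simp only [e1]
  simp only [emb, map_mul, map_pow, map_sub, map_one, Polynomial.aeval_X]
  rw [mul_pow, mul_pow, Finset.prod_pow]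
  ring

theorem constCoeff_Q : constantCoeff QQ = 1 := by
  unfold QQ
  rw [map_sub, map_mul, map_one, constantCoeff_X]
  ring

/-- coefficients of `P / Q` -/
theorem coeff_H (k : Fin 18 →₀ ℕ) :
    MvPowerSeries.coeff k ((PP : MvPowerSeries (Fin 18) ℝ) * (QQ : MvPowerSeries (Fin 18) ℝ)⁻¹) =
      ∏ j, (w (k 0) j).coeff (k j) := by
  set H : MvPowerSeries (Fin 18) ℝ := (PP : MvPowerSeries (Fin 18) ℝ) * (QQ : MvPowerSeries (Fin 18) ℝ)⁻¹ with hH
  have hQ0 : MvPowerSeries.constantCoeff (QQ : MvPowerSeries (Fin 18) ℝ) ≠ 0 := by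
    have : MvPowerSeries.constantCoeff (QQ : MvPowerSeries (Fin 18) ℝ) = constantCoeff QQ := by
      rw [← MvPowerSeries.coeff_zero_eq_constantCoeff_apply, MvPolynomial.coeff_coe]; rfl
    rw [this, constCoeff_Q]; exact one_ne_zero
  have h1 : H * (QQ : MvPowerSeries (Fin 18) ℝ) = PP :=
    (MvPowerSeries.eq_mul_inv_iff_mul_eq hQ0).1 hH
  have h2 : H = (PP : MvPowerSeries (Fin 18) ℝ) + ((X 0 * Phi : MvPolynomial (Fin 18) ℝ) : MvPowerSeries (Fin 18) ℝ) * H := by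
    have hcoe : (QQ : MvPowerSeries (Fin 18) ℝ) = 1 - ((X 0 * Phi : MvPolynomial (Fin 18) ℝ) : MvPowerSeries (Fin 18) ℝ) := by
      have := map_sub (MvPolynomial.coeToMvPowerSeries.ringHom (σ := Fin 18) (R := ℝ)) 1 (X 0 * Phi)
      rw [map_one] at this
      exact this
    rw [← h1, hcoe]
    ring
  have h3 : ∀ K : ℕ, H = (∑ N ∈ Finset.range K, ((PP * (X 0 * Phi) ^ N : MvPolynomial (Fin 18) ℝ) : MvPowerSeries (Fin 18) ℝ)) +
      ((X 0 * Phi : MvPolynomial (Fin 18) ℝ) : MvPowerSeries (Fin 18) ℝ) ^ K * H := by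
    intro K
    induction K with
    | zero => simp
    | succ K ih =>
      rw [Finset.sum_range_succ]
      have hc : ((PP * (X 0 * Phi) ^ K : MvPolynomial (Fin 18) ℝ) : MvPowerSeries (Fin 18) ℝ) =
          (PP : MvPowerSeries (Fin 18) ℝ) * ((X 0 * Phi : MvPolynomial (Fin 18) ℝ) : MvPowerSeries (Fin 18) ℝ) ^ K := by
        rw [MvPolynomial.coe_mul, MvPolynomial.coe_pow]
      rw [hc]
      generalize ((X 0 * Phi : MvPolynomial (Fin 18) ℝ) : MvPowerSeries (Fin 18) ℝ) = Y at *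
      calc H = _ + Y ^ K * H := ih
        _ = _ + Y ^ K * (PP + Y * H) := by rw [← h2]
        _ = _ := by ring
  rw [h3 (k 0 + 1), map_add, map_sum]
  have h4 : MvPowerSeries.coeff k (((X 0 * Phi : MvPolynomial (Fin 18) ℝ) : MvPowerSeries (Fin 18) ℝ) ^ (k 0 + 1) * H) = 0 := by
    have hd : (MvPowerSeries.X 0 : MvPowerSeries (Fin 18) ℝ) ^ (k 0 + 1) ∣
        ((X 0 * Phi : MvPolynomial (Fin 18) ℝ) : MvPowerSeries (Fin 18) ℝ) ^ (k 0 + 1) * H := by
      push_cast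
      rw [mul_pow, mul_assoc]
      exact dvd_mul_right _ _
    exact MvPowerSeries.X_pow_dvd_iff.1 hd k (Nat.lt_succ_self _)
  rw [h4, add_zero]
  rw [Finset.sum_eq_single (k 0)]
  · rw [T_eq, MvPolynomial.coeff_coe, coeff_prod_emb]
  · intro N _ hN
    rw [T_eq, MvPolynomial.coeff_coe, coeff_prod_emb]
    apply Finset.prod_eq_zero (Finset.mem_univ 0)
    simp only [w, Fin.cons_zero, Polynomial.coeff_X_pow]
    rw [if_neg (Ne.symm hN)]
  · intro h
    exact absurd (Finset.mem_range.2 (Nat.lt_succ_self _)) h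

theorem not_summable : ¬ Summable (fun k : Fin 18 →₀ ℕ =>
    |MvPowerSeries.coeff k
      ((PP : MvPowerSeries (Fin 18) ℝ) * (QQ : MvPowerSeries (Fin 18) ℝ)⁻¹)|) := by
  classical
  intro hs
  simp_rw [coeff_H] at hs
  set S := ∑' k : Fin 18 →₀ ℕ, |∏ j, (w (k 0) j).coeff (k j)| with hS
  have key : ∀ M : ℕ, 0 < M → (M : ℝ) / (64 * 52 ^ 16) ≤ S := by
    intro M hM
    have hM0 : (0 : ℝ) < M := by exact_mod_cast hM
    let d : ℕ := ((1 - Polynomial.X) ^ 5 * psi ^ (M ^ 12)).natDegree + (psi ^ (M ^ 12)).natDegree + 1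
    let t : Fin 18 → Finset ℕ := Fin.cons {M ^ 12} fun _ => Finset.range d
    let A : Finset (Fin 18 →₀ ℕ) := (Fintype.piFinset t).map Finsupp.equivFunOnFinite.symm.toEmbedding
    have h1 : ∑ k ∈ A, |∏ j, (w (k 0) j).coeff (k j)| ≤ S :=
      hs.sum_le_tsum A (fun _ _ => abs_nonneg _)
    refine le_trans ?_ h1
    have h2 : ∑ k ∈ A, |∏ j, (w (k 0) j).coeff (k j)| = ∑ f ∈ Fintype.piFinset t, ∏ j, |(w (M ^ 12) j).coeff (f j)| := by
      rw [Finset.sum_map]
      refine Finset.sum_congr rfl fun f hf => ?_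
      have hf0 : f 0 = M ^ 12 := by
        have := Fintype.mem_piFinset.1 hf 0
        simpa [t] using this
      simp only [Equiv.coe_toEmbedding, Finsupp.equivFunOnFinite_symm_apply_apply, hf0]
      rw [Finset.abs_prod]
    rw [h2, ← Finset.prod_univ_sum t (fun j i => |(w (M ^ 12) j).coeff i|), Fin.prod_univ_succ, Fin.prod_univ_succ]
    simp only [t, w, Fin.cons_zero, Fin.cons_succ, Finset.sum_singleton, Polynomial.coeff_X_pow_self, abs_one, one_mul,
      Finset.prod_const, Finset.card_univ, Fintype.card_fin]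
    have a1 := l1_first M hM d (by simp only [d]; omega)
    have a2 := l1_psi M hM d (by simp only [d]; omega)
    calc (M : ℝ) / (64 * 52 ^ 16) = 1 / (64 * (M : ℝ) ^ 15) * (M / 52) ^ 16 := by field_simp
      _ ≤ _ := by gcongr
  obtain ⟨m, hm⟩ := exists_nat_gt (S * (64 * 52 ^ 16))
  have h1 := key (m + 1) (Nat.succ_pos m)
  rw [div_le_iff₀ (by positivity)] at h1
  push_cast at h1
  linarith

theorem aeval_emb {n : ℕ} (z : Fin n → ℂ) (j : Fin n) (p : Polynomial ℝ) :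
    aeval z (emb j p) = Polynomial.aeval (z j) p := by
  unfold emb
  rw [← Polynomial.aeval_algHom_apply, aeval_X]

theorem aeval_P (z : Fin 18 → ℂ) : aeval z PP = (1 - z 1) ^ 5 := by
  unfold PP; simp

theorem norm_aeval_psi (z : ℂ) (hz : ‖z‖ ≤ 1) : ‖Polynomial.aeval z psi‖ ≤ 1 - 3 / 64 * ‖1 - z‖ ^ 4 := by
  rw [aeval_psi, norm_pow]
  exact phi_bound z hz

theorem norm_aeval_psi_one (z : ℂ) (hz : ‖z‖ ≤ 1) : ‖Polynomial.aeval z psi‖ ≤ 1 := by
  have := norm_aeval_psi z hz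
  have h : 0 ≤ ‖1 - z‖ ^ 4 := by positivity
  linarith

theorem Q_lower (z : Fin 18 → ℂ) (hz : ∀ i, ‖z i‖ ≤ 1) (i : Fin 17) :
    3 / 64 * ‖1 - z i.succ‖ ^ 4 ≤ ‖aeval z QQ‖ := by
  have e : aeval z QQ = 1 - z 0 * ∏ i : Fin 17, Polynomial.aeval (z i.succ) psi := by
    unfold QQ Phi
    rw [map_sub, map_mul, map_one, aeval_X, map_prod]
    simp_rw [aeval_emb]
  have h1 : ‖z 0 * ∏ i : Fin 17, Polynomial.aeval (z i.succ) psi‖ ≤ 1 - 3 / 64 * ‖1 - z i.succ‖ ^ 4 := by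
    rw [norm_mul, norm_prod]
    refine le_trans ?_ (norm_aeval_psi (z i.succ) (hz _))
    calc ‖z 0‖ * ∏ i : Fin 17, ‖Polynomial.aeval (z i.succ) psi‖
        ≤ 1 * ∏ i : Fin 17, ‖Polynomial.aeval (z i.succ) psi‖ := by
          gcongr
          exact hz 0
      _ = ∏ i : Fin 17, ‖Polynomial.aeval (z i.succ) psi‖ := one_mul _
      _ = ‖Polynomial.aeval (z i.succ) psi‖ * ∏ j ∈ Finset.univ.erase i, ‖Polynomial.aeval (z j.succ) psi‖ := by
          rw [Finset.mul_prod_erase Finset.univ (fun j : Fin 17 => ‖Polynomial.aeval (z j.succ) psi‖) (Finset.mem_univ i)]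
      _ ≤ ‖Polynomial.aeval (z i.succ) psi‖ * 1 := by
          gcongr
          exact Finset.prod_le_one (fun _ _ => norm_nonneg _) fun j _ => norm_aeval_psi_one _ (hz _)
      _ = _ := mul_one _
  rw [e]
  have h2 := norm_sub_norm_le (1 : ℂ) (z 0 * ∏ i : Fin 17, Polynomial.aeval (z i.succ) psi)
  rw [norm_one] at h2
  linarith

theorem zero_of_Q (z : Fin 18 → ℂ) (hz : ∀ i, ‖z i‖ ≤ 1) (h : aeval z QQ = 0) (i : Fin 17) :
    z i.succ = 1 := by
  have h1 := Q_lower z hz i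
  rw [h, norm_zero] at h1
  have h2 : ‖1 - z i.succ‖ ^ 4 = 0 := le_antisymm (by linarith) (by positivity)
  have h3 : ‖1 - z i.succ‖ = 0 := by simpa using h2
  have h4 := norm_eq_zero.1 h3
  exact (sub_eq_zero.1 h4).symm

theorem finite_zeros : {z : Fin 18 → ℂ | (∀ i, ‖z i‖ = 1) ∧ aeval z PP = 0 ∧ aeval z QQ = 0}.Finite := by
  apply (Set.finite_singleton (fun _ : Fin 18 => (1 : ℂ))).subset
  rintro z ⟨hz, _, hQ⟩
  rw [Set.mem_singleton_iff]
  have h1 := zero_of_Q z (fun i => (hz i).le) hQ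
  have h0 : z 0 = 1 := by
    have e : aeval z QQ = 1 - z 0 * ∏ i : Fin 17, Polynomial.aeval (z i.succ) psi := by
      unfold QQ Phi
      rw [map_sub, map_mul, map_one, aeval_X, map_prod]
      simp_rw [aeval_emb]
    rw [e] at hQ
    have e2 : ∏ i : Fin 17, Polynomial.aeval (z i.succ) psi = (1 : ℂ) := by
      apply Finset.prod_eq_one
      intro i _
      rw [h1 i, aeval_psi]; norm_num
    rw [e2, mul_one] at hQ
    exact (sub_eq_zero.1 hQ).symm
  funext i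
  refine Fin.cases h0 (fun j => h1 j) i

theorem F_bound (z : Fin 18 → ℂ) (hz : ∀ i, ‖z i‖ ≤ 1) :
    ‖aeval z PP / aeval z QQ‖ ≤ 64 / 3 * ‖1 - z 1‖ := by
  have h1 := Q_lower z hz 0
  have e1 : (Fin.succ 0 : Fin 18) = 1 := rfl
  rw [e1] at h1
  rw [norm_div, aeval_P, norm_pow]
  rcases eq_or_ne (‖1 - z 1‖) 0 with h0 | h0
  · rw [h0]; simp
  · have hp : 0 < ‖1 - z 1‖ := lt_of_le_of_ne (norm_nonneg _) (Ne.symm h0)
    have hq : 0 < ‖aeval z QQ‖ := lt_of_lt_of_le (by positivity) h1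
    rw [div_le_iff₀ hq]
    calc ‖1 - z 1‖ ^ 5 = 64 / 3 * ‖1 - z 1‖ * (3 / 64 * ‖1 - z 1‖ ^ 4) := by ring
      _ ≤ _ := by gcongr

theorem F_cont : ContinuousOn (fun z : Fin 18 → ℂ => aeval z PP / aeval z QQ)
    {z : Fin 18 → ℂ | ∀ i, ‖z i‖ ≤ 1} := by
  have hc : ∀ p : MvPolynomial (Fin 18) ℝ, Continuous fun z : Fin 18 → ℂ => aeval z p := fun p => by
    simp_rw [aeval_def, ← eval_map]
    exact MvPolynomial.continuous_eval _
  intro z hz
  by_cases hQ : aeval z QQ = 0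
  · have hz1 : z 1 = 1 := zero_of_Q z hz hQ 0
    show Filter.Tendsto _ _ (nhds (aeval z PP / aeval z QQ))
    rw [hQ, div_zero]
    refine squeeze_zero_norm' (a := fun y : Fin 18 → ℂ => 64 / 3 * ‖1 - y 1‖) ?_ ?_
    · filter_upwards [self_mem_nhdsWithin] with y hy
      exact F_bound y hy
    · have : Continuous fun y : Fin 18 → ℂ => 64 / 3 * ‖1 - y 1‖ := by fun_prop
      have h2 := this.tendsto z
      rw [hz1] at h2
      simp only [sub_self, norm_zero, mul_zero] at h2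
      exact h2.mono_left nhdsWithin_le_nhds
  · exact ((hc PP).continuousAt.div (hc QQ).continuousAt hQ).continuousWithinAt

theorem prime_one_sub : Prime (1 - X 1 : MvPolynomial (Fin 18) ℝ) := by
  let f : MvPolynomial (Fin 18) ℝ →ₐ[ℝ] MvPolynomial (Fin 18) ℝ :=
    aeval fun i => if i = 1 then 1 - X 1 else X i
  have hf1 : f (X 1) = 1 - X 1 := by simp [f]
  have hff : f.comp f = AlgHom.id ℝ _ := by
    apply MvPolynomial.algHom_ext
    intro i
    by_cases hi : i = 1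
    · subst hi
      rw [AlgHom.comp_apply, hf1, map_sub, map_one, hf1]
      simp
    · have : f (X i) = X i := by simp [f, hi]
      rw [AlgHom.comp_apply, this, this]; rfl
  let e : MvPolynomial (Fin 18) ℝ ≃ₐ[ℝ] MvPolynomial (Fin 18) ℝ := AlgEquiv.ofAlgHom f f hff hff
  have he : e (X 1) = 1 - X 1 := hf1
  rw [← he]
  exact (MulEquiv.prime_iff e.toMulEquiv).2 (X_prime)

theorem relprime : IsRelPrime PP QQ := by
  unfold PP
  apply IsRelPrime.pow_left
  rw [prime_one_sub.irreducible.isRelPrime_iff_not_dvd]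
  rintro ⟨c, hc⟩
  have h := congrArg (MvPolynomial.eval fun i : Fin 18 => if i = 1 then (1 : ℝ) else 0) hc
  rw [map_mul] at h
  unfold QQ at h
  simp at h

end Pool.Agent.H8
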