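import Mathlib

set_option autoImplicit false

open Finset

namespace Pool.Agent.H8.Greedy

variable {𝕜 : Type} [RCLike 𝕜]

/-- the coordinate `i` of `x - P_E x` -/
noncomputable def g (E : Finset ℕ) (i : ℕ) (x : ℕ → 𝕜) : 𝕜 := if i ∈ E then 0 else x i

noncomputable def φ (E : Finset ℕ) (x : ℕ → 𝕜) : ℝ := (1 + 1 / (E.card : ℝ)) * ∑ i ∈ E, ‖x i‖ + ‖g E 2 x - g E 1 x‖

theorem φ_nonneg (E : Finset ℕ) (x : ℕ → 𝕜) : 0 ≤ φ E x := by
  unfold φ; positivity

theorem φ_add (E : Finset ℕ) (x y : ℕ → 𝕜) : φ E (x + y) ≤ φ E x + φ E y := by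
  unfold φ
  have h1 : ∑ i ∈ E, ‖(x + y) i‖ ≤ ∑ i ∈ E, ‖x i‖ + ∑ i ∈ E, ‖y i‖ := by
    rw [← sum_add_distrib]
    exact sum_le_sum fun i _ => norm_add_le _ _
  have h2 : g E 2 (x + y) - g E 1 (x + y) = (g E 2 x - g E 1 x) + (g E 2 y - g E 1 y) := by
    unfold g
    simp only [Pi.add_apply]
    split_ifs <;> ring
  rw [h2]
  have h3 := norm_add_le (g E 2 x - g E 1 x) (g E 2 y - g E 1 y)
  have h4 : (1 + 1 / (E.card : ℝ)) * ∑ i ∈ E, ‖(x + y) i‖ ≤ (1 + 1 / (E.card : ℝ)) * (∑ i ∈ E, ‖x i‖ + ∑ i ∈ E, ‖y i‖) :=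
    mul_le_mul_of_nonneg_left h1 (by positivity)
  linarith

theorem φ_smul (E : Finset ℕ) (c : 𝕜) (x : ℕ → 𝕜) : φ E (c • x) = ‖c‖ * φ E x := by
  unfold φ
  have h2 : g E 2 (c • x) - g E 1 (c • x) = c * (g E 2 x - g E 1 x) := by
    unfold g
    simp only [Pi.smul_apply, smul_eq_mul]
    split_ifs <;> ring
  rw [h2, norm_mul]
  simp only [Pi.smul_apply, smul_eq_mul, norm_mul, ← mul_sum]
  ring

theorem c_le_two (E : Finset ℕ) : 1 + 1 / (E.card : ℝ) ≤ 2 := by
  rcases Nat.eq_zero_or_pos E.card with h | h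
  · rw [h]; norm_num
  · have : (1 : ℝ) ≤ E.card := by exact_mod_cast h
    have h2 : 1 / (E.card : ℝ) ≤ 1 := by rw [div_le_one (by linarith)]; exact this
    linarith

/-- off-set part -/
noncomputable def off (A : Finset ℕ) (x : ℕ → 𝕜) : ℕ → 𝕜 := fun i => if i ∈ A then 0 else x i

theorem real_ineq (k m b : ℕ) (Y Z W t cE : ℝ) (hb : b ≤ m) (hY : Y ≤ k * t) (hZ : Z ≤ b * t) (hW : m * t ≤ W) (hY0 : 0 ≤ Y) (hZ0 : 0 ≤ Z) (ht : 0 ≤ t)
    (hcE : 1 ≤ k + b → cE ≤ 1 + 1 / ((k + b : ℕ) : ℝ)) :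
    cE * (Y + Z) + (m - b) * t ≤ (1 + 1 / ((k + m : ℕ) : ℝ)) * (Y + W) := by
  have hmb : (b : ℝ) ≤ m := by exact_mod_cast hb
  rcases Nat.eq_zero_or_pos (k + b) with h0 | hpos
  · have hk : k = 0 := by omega
    have hb0 : b = 0 := by omega
    subst hk hb0
    have hY' : Y = 0 := by simp at hY; linarith
    have hZ' : Z = 0 := by simp at hZ; linarith
    rw [hY', hZ']
    have h1 : 0 ≤ 1 / (((0 + m : ℕ)) : ℝ) := by positivity
    have hW0 : 0 ≤ W := le_trans (by positivity) hW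
    simp only [add_zero, mul_zero, zero_add, Nat.cast_zero, sub_zero]
    rw [zero_add] at h1
    nlinarith
  · have hcE' := hcE hpos
    have p1 : (0 : ℝ) < ((k + b : ℕ) : ℝ) := by exact_mod_cast hpos
    have p2 : (0 : ℝ) < ((k + m : ℕ) : ℝ) := by exact_mod_cast (show 0 < k + m by omega)
    have s1 : cE * (Y + Z) ≤ (1 + 1 / ((k + b : ℕ) : ℝ)) * (Y + b * t) := by
      calc cE * (Y + Z) ≤ (1 + 1 / ((k + b : ℕ) : ℝ)) * (Y + Z) := mul_le_mul_of_nonneg_right hcE' (by linarith)
        _ ≤ _ := mul_le_mul_of_nonneg_left (by linarith) (by positivity)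
    have s2 : (1 + 1 / ((k + m : ℕ) : ℝ)) * (Y + m * t) ≤ (1 + 1 / ((k + m : ℕ) : ℝ)) * (Y + W) :=
      mul_le_mul_of_nonneg_left (by linarith) (by positivity)
    have s3 : (Y + b * t) / ((k + b : ℕ) : ℝ) ≤ (Y + m * t) / ((k + m : ℕ) : ℝ) := by
      rw [div_le_div_iff₀ p1 p2]
      push_cast
      nlinarith [mul_nonneg (sub_nonneg.2 hmb) (sub_nonneg.2 hY)]
    have e1 : (1 + 1 / ((k + b : ℕ) : ℝ)) * (Y + b * t) = (Y + b * t) + (Y + b * t) / ((k + b : ℕ) : ℝ) := by ring
    have e2 : (1 + 1 / ((k + m : ℕ) : ℝ)) * (Y + m * t) = (Y + m * t) + (Y + m * t) / ((k + m : ℕ) : ℝ) := by ring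
    rw [e1] at s1
    rw [e2] at s2
    linarith

theorem card_sdiff_le {A B : Finset ℕ} (h : B.card ≤ A.card) : (B \ A).card ≤ (A \ B).card := by
  have h1 := card_sdiff_add_card_inter B A
  have h2 := card_sdiff_add_card_inter A B
  rw [inter_comm] at h2
  omega

theorem ag_key (x : ℕ → 𝕜) (A B : Finset ℕ) (hg : ∀ n ∈ A, ∀ k ∉ A, ‖x k‖ ≤ ‖x n‖) (hAB : B.card ≤ A.card) (E : Finset ℕ) :
    ∃ E' : Finset ℕ, φ E (off A x) ≤ φ E' (off B x) := by
  rcases (A \ B).eq_empty_or_nonempty with he | hne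
  · have h1 : (B \ A).card ≤ 0 := by
      have := card_sdiff_le hAB
      rw [he] at this
      simpa using this
    have h2 : B \ A = ∅ := card_eq_zero.1 (by omega)
    have h3 : A = B := Subset.antisymm (sdiff_eq_empty_iff_subset.1 he) (sdiff_eq_empty_iff_subset.1 h2)
    exact ⟨E, by rw [h3]⟩
  · set t := (A \ B).inf' hne (fun n => ‖x n‖) with ht
    have htA : ∀ n ∈ A \ B, t ≤ ‖x n‖ := fun n hn => inf'_le _ hn
    have htk : ∀ k ∉ A, ‖x k‖ ≤ t := fun k hk => le_inf' _ _ fun n hn => hg n (mem_sdiff.1 hn).1 k hk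
    have ht0 : 0 ≤ t := le_inf' _ _ fun n _ => norm_nonneg _
    set Ey := E \ (A ∪ B) with hEy
    set EB := E ∩ (B \ A) with hEB
    refine ⟨Ey ∪ (A \ B), ?_⟩
    set Y := ∑ i ∈ Ey, ‖x i‖ with hY
    set Z := ∑ i ∈ EB, ‖x i‖ with hZ
    set W := ∑ i ∈ A \ B, ‖x i‖ with hW
    have hd1 : Disjoint Ey (A \ B) := by
      rw [disjoint_left]
      intro i hi hi'
      rw [hEy, mem_sdiff, mem_union] at hi
      exact hi.2 (Or.inl (mem_sdiff.1 hi').1)
    have hd2 : Disjoint Ey EB := by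
      rw [disjoint_left]
      intro i hi hi'
      rw [hEy, mem_sdiff, mem_union] at hi
      rw [hEB, mem_inter, mem_sdiff] at hi'
      exact hi.2 (Or.inr hi'.2.1)
    have hsub : Ey ∪ EB ⊆ E := union_subset sdiff_subset inter_subset_left
    have hsum1 : ∑ i ∈ E, ‖off A x i‖ = Y + Z := by
      rw [hY, hZ, ← sum_union hd2]
      symm
      have h1 : ∀ i ∈ Ey ∪ EB, ‖x i‖ = ‖off A x i‖ := by
        intro i hi
        unfold off
        rw [if_neg]
        intro hiA
        rcases mem_union.1 hi with h | h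
        · rw [hEy, mem_sdiff, mem_union] at h; exact h.2 (Or.inl hiA)
        · rw [hEB, mem_inter, mem_sdiff] at h; exact h.2.2 hiA
      rw [sum_congr rfl h1]
      refine sum_subset hsub fun i hi hni => ?_
      unfold off
      rw [if_pos, norm_zero]
      by_contra hiA
      apply hni
      rw [mem_union]
      by_cases hiB : i ∈ B
      · right; rw [hEB, mem_inter, mem_sdiff]; exact ⟨hi, hiB, hiA⟩
      · left; rw [hEy, mem_sdiff, mem_union]; exact ⟨hi, by tauto⟩
    have hsum2 : ∑ i ∈ Ey ∪ (A \ B), ‖off B x i‖ = Y + W := by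
      rw [sum_union hd1]
      congr 1
      · refine sum_congr rfl fun i hi => ?_
        rw [hEy, mem_sdiff, mem_union] at hi
        unfold off
        rw [if_neg (by tauto)]
      · refine sum_congr rfl fun i hi => ?_
        unfold off
        rw [if_neg (mem_sdiff.1 hi).2]
    have hYk : Y ≤ (Ey.card : ℝ) * t := by
      rw [hY, ← nsmul_eq_mul]
      refine sum_le_card_nsmul _ _ _ fun i hi => htk i ?_
      rw [hEy, mem_sdiff, mem_union] at hi
      tauto
    have hZb : Z ≤ (EB.card : ℝ) * t := by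
      rw [hZ, ← nsmul_eq_mul]
      refine sum_le_card_nsmul _ _ _ fun i hi => htk i ?_
      rw [hEB, mem_inter, mem_sdiff] at hi
      tauto
    have hWm : ((A \ B).card : ℝ) * t ≤ W := by
      rw [hW, ← nsmul_eq_mul]
      exact card_nsmul_le_sum _ _ _ fun i hi => htA i hi
    have hbB : EB.card + ((B \ A) \ E).card = (B \ A).card := by
      rw [hEB, inter_comm, add_comm]
      exact card_sdiff_add_card_inter (B \ A) E
    have hBA := card_sdiff_le hAB
    have hbm : EB.card ≤ (A \ B).card := by omega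
    have hreal := real_ineq Ey.card (A \ B).card EB.card Y Z W t (1 + 1 / (E.card : ℝ)) hbm hYk hZb hWm (sum_nonneg fun _ _ => norm_nonneg _) (sum_nonneg fun _ _ => norm_nonneg _) ht0 (by
      intro hpos
      have h1 : Ey.card + EB.card ≤ E.card := by
        rw [← card_union_of_disjoint hd2]
        exact card_le_card hsub
      have h2 : (0 : ℝ) < ((Ey.card + EB.card : ℕ) : ℝ) := by exact_mod_cast hpos
      have h3 : ((Ey.card + EB.card : ℕ) : ℝ) ≤ E.card := by exact_mod_cast h1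
      have := one_div_le_one_div_of_le h2 h3
      linarith)
    -- the functional part
    have hgi : ∀ i, ∃ r : 𝕜, g E i (off A x) = g (Ey ∪ (A \ B)) i (off B x) + r ∧ ‖r‖ ≤ (if i ∈ (B \ A) \ E then t else 0) := by
      intro i
      by_cases hi : i ∈ (B \ A) \ E
      · have hi' := hi
        rw [mem_sdiff, mem_sdiff] at hi'
        refine ⟨x i, ?_, ?_⟩
        · unfold g off
          rw [if_neg hi'.2, if_neg hi'.1.2, if_pos hi'.1.1]
          split_ifs <;> ring
        · rw [if_pos hi]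
          exact htk i hi'.1.2
      · refine ⟨0, ?_, by rw [if_neg hi]; simp⟩
        rw [add_zero]
        unfold g off
        rw [mem_sdiff, mem_sdiff] at hi
        by_cases hA : i ∈ A
        · rw [if_pos hA]
          by_cases hB : i ∈ B
          · rw [if_pos hB]; split_ifs <;> rfl
          · rw [if_neg hB, if_pos (mem_union_right _ (mem_sdiff.2 ⟨hA, hB⟩))]
            split_ifs <;> rfl
        · rw [if_neg hA]
          by_cases hB : i ∈ B
          · have hE : i ∈ E := by tauto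
            rw [if_pos hE, if_pos hB]; split_ifs <;> rfl
          · rw [if_neg hB]
            by_cases hE : i ∈ E
            · rw [if_pos hE, if_pos]
              rw [mem_union, hEy, mem_sdiff, mem_union]
              tauto
            · rw [if_neg hE, if_neg]
              rw [mem_union, hEy, mem_sdiff, mem_sdiff]
              tauto
    obtain ⟨r2, hr2, hr2'⟩ := hgi 2
    obtain ⟨r1, hr1, hr1'⟩ := hgi 1
    have hcount : (if 2 ∈ (B \ A) \ E then t else 0) + (if 1 ∈ (B \ A) \ E then t else 0) ≤ (((B \ A) \ E).card : ℝ) * t := by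
      have hc : ((({1, 2} : Finset ℕ) ∩ ((B \ A) \ E)).card : ℝ) ≤ (((B \ A) \ E).card : ℝ) := by
        exact_mod_cast card_le_card inter_subset_right
      have hc2 : (if 2 ∈ (B \ A) \ E then t else 0) + (if 1 ∈ (B \ A) \ E then t else 0) = ((({1, 2} : Finset ℕ) ∩ ((B \ A) \ E)).card : ℝ) * t := by
        by_cases h1 : 1 ∈ (B \ A) \ E <;> by_cases h2 : 2 ∈ (B \ A) \ E
        · rw [if_pos h1, if_pos h2, insert_inter_of_mem h1, singleton_inter_of_mem h2]
          rw [card_pair (by norm_num)]; push_cast; ring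
        · rw [if_pos h1, if_neg h2, insert_inter_of_mem h1, singleton_inter_of_notMem h2]; simp
        · rw [if_neg h1, if_pos h2, insert_inter_of_notMem h1, singleton_inter_of_mem h2]; simp
        · rw [if_neg h1, if_neg h2, insert_inter_of_notMem h1, singleton_inter_of_notMem h2]; simp
      rw [hc2]
      exact mul_le_mul_of_nonneg_right hc ht0
    have hf : ‖g E 2 (off A x) - g E 1 (off A x)‖ ≤ ‖g (Ey ∪ (A \ B)) 2 (off B x) - g (Ey ∪ (A \ B)) 1 (off B x)‖ + (((A \ B).card : ℝ) - EB.card) * t := by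
      have e : g E 2 (off A x) - g E 1 (off A x) = (g (Ey ∪ (A \ B)) 2 (off B x) - g (Ey ∪ (A \ B)) 1 (off B x)) + (r2 - r1) := by
        rw [hr1, hr2]; ring
      rw [e]
      have h1 := norm_add_le (g (Ey ∪ (A \ B)) 2 (off B x) - g (Ey ∪ (A \ B)) 1 (off B x)) (r2 - r1)
      have h2 := norm_sub_le r2 r1
      have h3 : (((B \ A) \ E).card : ℝ) ≤ ((A \ B).card : ℝ) - EB.card := by
        have : EB.card + ((B \ A) \ E).card ≤ (A \ B).card := by omega
        have : ((EB.card + ((B \ A) \ E).card : ℕ) : ℝ) ≤ ((A \ B).card : ℝ) := by exact_mod_cast this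
        push_cast at this
        linarith
      have h4 := mul_le_mul_of_nonneg_right h3 ht0
      linarith
    unfold φ
    rw [hsum1, hsum2, card_union_of_disjoint hd1]
    linarith

end Pool.Agent.H8.Greedy
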