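import Pool.Agent.H8.Coef

set_option autoImplicit false

open Set Complex Polynomial

namespace Pool.Agent.H8

/-- `ψ = φ²` -/
noncomputable def psi : ℝ[X] := (C (1 / 8) * (3 + 6 * X - X ^ 2)) ^ 2

theorem aeval_psi (z : ℂ) : aeval z psi = ((3 + 6 * z - z ^ 2) / 8) ^ 2 := by
  unfold psi
  rw [map_pow, map_mul, aeval_C, map_sub, map_add, map_mul, map_pow, aeval_X]
  simp only [map_ofNat]
  congr 1
  push_cast
  ring

/-- duality estimate -/
theorem l1_ge (p : ℝ[X]) (n : ℕ) (hn : p.natDegree < n) (B : ℝ)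
    (hB : ∀ i : ℕ, ‖∫ x in (-Real.pi)..Real.pi, aeval (exp (x * I)) p * exp (-((i : ℝ) * x : ℝ) * I)‖ ≤ B) :
    ∫ x in (-Real.pi)..Real.pi, ‖aeval (exp (x * I)) p‖ ^ 2 ≤
      B * ∑ i ∈ Finset.range n, |p.coeff i| := by
  have hcont : Continuous fun x : ℝ => aeval (exp (x * I)) p := by
    have : Continuous fun z : ℂ => aeval z p := p.continuous_aeval
    exact this.comp (by fun_prop)
  have e : ((∫ x in (-Real.pi)..Real.pi, ‖aeval (exp (x * I)) p‖ ^ 2 : ℝ) : ℂ) =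
      ∑ i ∈ Finset.range n, (p.coeff i : ℂ) *
        ∫ x in (-Real.pi)..Real.pi, aeval (exp (x * I)) p * exp (-((i : ℝ) * x : ℝ) * I) := by
    rw [← intervalIntegral.integral_ofReal]
    simp_rw [← intervalIntegral.integral_const_mul]
    rw [← intervalIntegral.integral_finsetSum]
    · refine intervalIntegral.integral_congr fun x _ => ?_
      show ((‖aeval (exp (x * I)) p‖ ^ 2 : ℝ) : ℂ) = _
      have e1 : ((‖aeval (exp (x * I)) p‖ ^ 2 : ℝ) : ℂ) =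
          aeval (exp (x * I)) p * (starRingEnd ℂ) (aeval (exp (x * I)) p) := by
        rw [mul_conj, normSq_eq_norm_sq]
      rw [e1]
      have e2 : (starRingEnd ℂ) (aeval (exp (x * I)) p) =
          ∑ i ∈ Finset.range n, (p.coeff i : ℂ) * exp (-((i : ℝ) * x : ℝ) * I) := by
        rw [aeval_eq_sum_range' hn, map_sum]
        refine Finset.sum_congr rfl fun i _ => ?_
        rw [Complex.real_smul, map_mul, conj_ofReal, map_pow, ← exp_conj, ← exp_nat_mul]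
        congr 2
        simp
        ring
      rw [e2, Finset.mul_sum]
      refine Finset.sum_congr rfl fun i _ => ?_
      ring
    · intro i _
      exact (Continuous.intervalIntegrable (by fun_prop) _ _)
  have h1 : ∫ x in (-Real.pi)..Real.pi, ‖aeval (exp (x * I)) p‖ ^ 2 ≤
      ‖((∫ x in (-Real.pi)..Real.pi, ‖aeval (exp (x * I)) p‖ ^ 2 : ℝ) : ℂ)‖ := by
    rw [norm_real]; exact le_abs_self _
  refine h1.trans ?_
  rw [e]
  refine (norm_sum_le _ _).trans ?_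
  rw [Finset.mul_sum]
  refine Finset.sum_le_sum fun i _ => ?_
  rw [norm_mul, norm_real, Real.norm_eq_abs, mul_comm]
  exact mul_le_mul_of_nonneg_right (hB i) (abs_nonneg _)

theorem D_lower (N : ℕ) (x : ℝ) (hx : N * x ^ 4 ≤ 1) (r : ℕ) (hr : r ≤ 2 * N) :
    1 / 2 ≤ (D x / 16) ^ r := by
  have h1 : 1 - 3 / 64 * x ^ 4 ≤ D x / 16 := by
    rw [D_eq]
    have := Real.one_sub_sq_div_two_le_cos (x := x)
    have h2 := Real.cos_le_one x
    have : (1 - Real.cos x) ^ 2 ≤ (x ^ 2 / 2) ^ 2 := pow_le_pow_left₀ (by linarith) (by linarith) 2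
    nlinarith
  rcases Nat.eq_zero_or_pos N with h0 | h0
  · subst h0
    have : r = 0 := by omega
    subst this; norm_num
  have hN : (1 : ℝ) ≤ N := by exact_mod_cast h0
  have hx4 : x ^ 4 ≤ 1 := by
    have : 0 ≤ x ^ 4 := by positivity
    nlinarith
  have h2 : 1 + (r : ℝ) * (-(3 / 64 * x ^ 4)) ≤ (1 + -(3 / 64 * x ^ 4)) ^ r := by
    apply one_add_mul_le_pow
    linarith
  have h3 : (1 + -(3 / 64 * x ^ 4)) ^ r ≤ (D x / 16) ^ r := by
    apply pow_le_pow_left₀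
    · linarith
    · linarith
  have h4 : (r : ℝ) ≤ 2 * N := by exact_mod_cast hr
  have h5 : (r : ℝ) * x ^ 4 ≤ 2 := by
    calc (r : ℝ) * x ^ 4 ≤ 2 * N * x ^ 4 := by gcongr
      _ ≤ 2 := by linarith
  nlinarith

theorem aeval_psi_pow (N : ℕ) (x : ℝ) : aeval (exp (x * I)) (psi ^ N) = g x ^ (2 * N) := by
  rw [map_pow, aeval_psi, ← pow_mul]; rfl

theorem norm_aeval_psi_pow (N : ℕ) (x : ℝ) : ‖aeval (exp (x * I)) (psi ^ N)‖ = (D x / 16) ^ N := by
  rw [aeval_psi_pow, norm_pow, pow_mul, g_norm_sq]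

theorem l1_psi (M : ℕ) (hM : 0 < M) (n : ℕ) (hn : (psi ^ (M ^ 12)).natDegree < n) :
    (M : ℝ) / 52 ≤ ∑ i ∈ Finset.range n, |(psi ^ (M ^ 12)).coeff i| := by
  have hM1 : (1 : ℝ) ≤ M := by exact_mod_cast hM
  have hM0 : (0 : ℝ) < M := by linarith
  have hpi := Real.pi_pos
  have hpi3 := Real.pi_gt_three
  have hpi4 := Real.pi_le_four
  have hN : 0 < M ^ 12 := by positivity
  have hB : ∀ i : ℕ, ‖∫ x in (-Real.pi)..Real.pi, aeval (exp (x * I)) (psi ^ (M ^ 12)) *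
      exp (-((i : ℝ) * x : ℝ) * I)‖ ≤ 52 / (M : ℝ) ^ 4 := by
    intro i
    simp_rw [aeval_psi_pow]
    have hδ1 : 1 / (M : ℝ) ^ 4 ≤ Real.pi / 2 := by
      have : 1 / (M : ℝ) ^ 4 ≤ 1 := by
        rw [div_le_one (by positivity)]
        exact one_le_pow₀ hM1
      linarith
    have h := Z_full (M ^ 12) hN i (1 / (M : ℝ) ^ 4) (by positivity) hδ1
    refine h.trans ?_
    have e1 : Real.sqrt (((M ^ 12 : ℕ) : ℝ) * (1 / (M : ℝ) ^ 4) / Real.pi) = (M : ℝ) ^ 4 / Real.sqrt Real.pi := by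
      rw [Real.sqrt_div (by positivity)]
      congr 1
      have : ((M ^ 12 : ℕ) : ℝ) * (1 / (M : ℝ) ^ 4) = ((M : ℝ) ^ 4) ^ 2 := by
        push_cast; field_simp
      rw [this, Real.sqrt_sq (by positivity)]
    have e2 : Real.sqrt Real.pi ≤ 2 := by
      rw [Real.sqrt_le_left (by norm_num)]
      linarith
    have e3 : (13 / 16 : ℝ) ^ (M ^ 12) ≤ 9 / 2 / (M : ℝ) ^ 4 := by
      have b := one_add_mul_le_pow (a := (3 / 13 : ℝ)) (by norm_num) (M ^ 12)
      have b1 : (M : ℝ) ^ 4 * (2 / 9) ≤ (1 + 3 / 13 : ℝ) ^ (M ^ 12) := by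
        have : (M : ℝ) ^ 4 ≤ (M : ℝ) ^ 12 := pow_le_pow_right₀ hM1 (by norm_num)
        push_cast at b
        have h4 : 0 ≤ (M : ℝ) ^ 4 := by positivity
        linarith
      have b2 : (13 / 16 : ℝ) ^ (M ^ 12) = 1 / (1 + 3 / 13 : ℝ) ^ (M ^ 12) := by
        rw [one_div, ← inv_pow]; norm_num
      rw [b2, div_le_div_iff₀ (by positivity) (by positivity)]
      linarith
    rw [e1]
    have e4 : 8 / ((M : ℝ) ^ 4 / Real.sqrt Real.pi) ≤ 16 / (M : ℝ) ^ 4 := by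
      rw [div_div_eq_mul_div]
      gcongr
      linarith
    calc 2 * (1 / (M : ℝ) ^ 4 + 8 / ((M : ℝ) ^ 4 / Real.sqrt Real.pi) + 2 * (13 / 16) ^ (M ^ 12))
        ≤ 2 * (1 / (M : ℝ) ^ 4 + 16 / (M : ℝ) ^ 4 + 2 * (9 / 2 / (M : ℝ) ^ 4)) := by gcongr
      _ = 52 / (M : ℝ) ^ 4 := by ring
  have h := l1_ge (psi ^ (M ^ 12)) n hn _ hB
  have hL : 1 / (M : ℝ) ^ 3 ≤ ∫ x in (-Real.pi)..Real.pi, ‖aeval (exp (x * I)) (psi ^ (M ^ 12))‖ ^ 2 := by
    have hc : Continuous fun x : ℝ => ‖aeval (exp (x * I)) (psi ^ (M ^ 12))‖ ^ 2 := by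
      have : Continuous fun z : ℂ => aeval z (psi ^ (M ^ 12)) := (psi ^ (M ^ 12)).continuous_aeval
      exact (this.comp (by fun_prop : Continuous fun x : ℝ => exp (x * I))).norm.pow 2
    have hsub : Set.Icc (-(1 / (M : ℝ) ^ 3)) (1 / (M : ℝ) ^ 3) ⊆ Set.Icc (-Real.pi) Real.pi := by
      have : 1 / (M : ℝ) ^ 3 ≤ 1 := by
        rw [div_le_one (by positivity)]
        exact one_le_pow₀ hM1
      apply Set.Icc_subset_Icc <;> linarith
    have h3 : 0 < 1 / (M : ℝ) ^ 3 := by positivity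
    have i1 : ∫ x in (-(1 / (M : ℝ) ^ 3))..(1 / (M : ℝ) ^ 3), ‖aeval (exp (x * I)) (psi ^ (M ^ 12))‖ ^ 2 ≤
        ∫ x in (-Real.pi)..Real.pi, ‖aeval (exp (x * I)) (psi ^ (M ^ 12))‖ ^ 2 := by
      apply intervalIntegral.integral_mono_interval
      · have := (hsub (left_mem_Icc.2 (by linarith))).1; exact this
      · linarith
      · have := (hsub (right_mem_Icc.2 (by linarith))).2; exact this
      · exact Filter.Eventually.of_forall fun x => by positivity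
      · exact hc.intervalIntegrable _ _
    have i2 : ∫ x in (-(1 / (M : ℝ) ^ 3))..(1 / (M : ℝ) ^ 3), (1 / 2 : ℝ) ≤
        ∫ x in (-(1 / (M : ℝ) ^ 3))..(1 / (M : ℝ) ^ 3), ‖aeval (exp (x * I)) (psi ^ (M ^ 12))‖ ^ 2 := by
      apply intervalIntegral.integral_mono_on (by linarith)
      · exact (continuous_const).intervalIntegrable _ _
      · exact hc.intervalIntegrable _ _
      · intro x hx
        rw [norm_aeval_psi_pow, ← pow_mul]
        refine D_lower (M ^ 12) x ?_ _ (by omega)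
        have hx1 : |x| ≤ 1 / (M : ℝ) ^ 3 := abs_le.2 hx
        have : x ^ 4 = |x| ^ 4 := by rw [← abs_pow]; rw [abs_of_nonneg (by positivity)]
        rw [this]
        have h5 : |x| ^ 4 ≤ (1 / (M : ℝ) ^ 3) ^ 4 := pow_le_pow_left₀ (abs_nonneg _) hx1 4
        calc ((M ^ 12 : ℕ) : ℝ) * |x| ^ 4 ≤ ((M ^ 12 : ℕ) : ℝ) * (1 / (M : ℝ) ^ 3) ^ 4 := by gcongr
          _ = 1 := by push_cast; field_simp
    rw [intervalIntegral.integral_const] at i2
    have : (1 / (M : ℝ) ^ 3 - -(1 / (M : ℝ) ^ 3)) • (1 / 2 : ℝ) = 1 / (M : ℝ) ^ 3 := by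
      rw [smul_eq_mul]; ring
    linarith
  have h6 := hL.trans h
  have h7 : 1 / (M : ℝ) ^ 3 * ((M : ℝ) ^ 4 / 52) ≤ 52 / (M : ℝ) ^ 4 *
      (∑ i ∈ Finset.range n, |(psi ^ (M ^ 12)).coeff i|) * ((M : ℝ) ^ 4 / 52) := by
    gcongr
  have e1 : 1 / (M : ℝ) ^ 3 * ((M : ℝ) ^ 4 / 52) = M / 52 := by field_simp
  have e2 : 52 / (M : ℝ) ^ 4 * (∑ i ∈ Finset.range n, |(psi ^ (M ^ 12)).coeff i|) * ((M : ℝ) ^ 4 / 52) =
      ∑ i ∈ Finset.range n, |(psi ^ (M ^ 12)).coeff i| := by field_simp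
  rw [e1, e2] at h7
  exact h7

theorem l1_first (M : ℕ) (hM : 0 < M) (n : ℕ) (hn : ((1 - X) ^ 5 * psi ^ (M ^ 12)).natDegree < n) :
    1 / (64 * (M : ℝ) ^ 15) ≤ ∑ i ∈ Finset.range n, |((1 - X) ^ 5 * psi ^ (M ^ 12)).coeff i| := by
  have hM1 : (1 : ℝ) ≤ M := by exact_mod_cast hM
  have hM0 : (0 : ℝ) < M := by linarith
  set x : ℝ := 1 / (M : ℝ) ^ 3 with hx
  have hx0 : 0 < x := by positivity
  have hx1 : x ≤ 1 := by
    rw [hx, div_le_one (by positivity)]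
    exact one_le_pow₀ hM1
  have h1 : ‖aeval (exp (x * I)) ((1 - X) ^ 5 * psi ^ (M ^ 12))‖ ≤
      ∑ i ∈ Finset.range n, |((1 - X) ^ 5 * psi ^ (M ^ 12)).coeff i| := by
    rw [aeval_eq_sum_range' hn]
    refine (norm_sum_le _ _).trans (Finset.sum_le_sum fun i _ => ?_)
    rw [norm_smul, norm_pow, norm_exp_ofReal_mul_I, one_pow, mul_one, Real.norm_eq_abs]
  refine le_trans ?_ h1
  rw [map_mul, norm_mul, norm_aeval_psi_pow, map_pow, norm_pow, map_sub, map_one, aeval_X]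
  have h2 : x / 2 ≤ ‖1 - exp (x * I)‖ := by
    have him : (1 - exp (x * I)).im = -Real.sin x := by
      rw [sub_im, one_im, exp_ofReal_mul_I_im]; ring
    have h3 := abs_im_le_norm (1 - exp (x * I))
    rw [him, abs_neg] at h3
    have h4 : 2 / Real.pi * x ≤ Real.sin x :=
      Real.mul_le_sin hx0.le (by linarith [Real.pi_gt_three])
    have h5 : 1 / 2 ≤ 2 / Real.pi := by
      rw [div_le_div_iff₀ (by norm_num) Real.pi_pos]
      linarith [Real.pi_le_four]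
    have h6 : x / 2 ≤ Real.sin x := by
      calc x / 2 = 1 / 2 * x := by ring
        _ ≤ 2 / Real.pi * x := by gcongr
        _ ≤ _ := h4
    exact h6.trans ((le_abs_self _).trans h3)
  have h3 : 1 / 2 ≤ (D x / 16) ^ (M ^ 12) := by
    refine D_lower (M ^ 12) x ?_ _ (by omega)
    rw [hx]
    push_cast
    have : (M : ℝ) ^ 12 * (1 / (M : ℝ) ^ 3) ^ 4 = 1 := by field_simp
    rw [this]
  calc 1 / (64 * (M : ℝ) ^ 15) = (x / 2) ^ 5 * (1 / 2) := by rw [hx]; field_simp; norm_num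
    _ ≤ ‖1 - exp (x * I)‖ ^ 5 * (D x / 16) ^ (M ^ 12) := by gcongr

end Pool.Agent.H8
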