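import Pool.Agent.H8.L1

set_option autoImplicit false

open MvPolynomial

namespace Pool.Agent.H8

/-- embedding of a one-variable polynomial in the variable `j` -/
noncomputable def emb {n : ℕ} (j : Fin n) (p : Polynomial ℝ) : MvPolynomial (Fin n) ℝ :=
  Polynomial.aeval (X j) p

theorem emb_eq_sum {n : ℕ} (j : Fin n) (p : Polynomial ℝ) (d : ℕ) (hd : p.natDegree < d) :
    emb j p = ∑ i ∈ Finset.range d, C (p.coeff i) * (X j) ^ i := by
  unfold emb
  rw [Polynomial.aeval_eq_sum_range' hd]
  refine Finset.sum_congr rfl fun i _ => ?_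
  rw [Algebra.smul_def]; rfl

theorem coeff_prod_emb {n : ℕ} (p : Fin n → Polynomial ℝ) (k : Fin n →₀ ℕ) :
    coeff k (∏ j, emb j (p j)) = ∏ j, (p j).coeff (k j) := by
  classical
  let d : ℕ := (Finset.univ.sup fun j => (p j).natDegree) + 1 + Finset.univ.sup k
  have hd : ∀ j, (p j).natDegree < d := by
    intro j
    have : (p j).natDegree ≤ Finset.univ.sup fun j => (p j).natDegree :=
      Finset.le_sup (f := fun j => (p j).natDegree) (Finset.mem_univ j)
    simp only [d]; omega
  have hk : ∀ j, k j < d := by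
    intro j
    have : k j ≤ Finset.univ.sup k := Finset.le_sup (Finset.mem_univ j)
    simp only [d]; omega
  have e1 : ∏ j, emb j (p j) = ∏ j, ∑ i ∈ Finset.range d, C ((p j).coeff i) * (X j) ^ i :=
    Finset.prod_congr rfl fun j _ => emb_eq_sum j (p j) d (hd j)
  rw [e1, Finset.prod_univ_sum, coeff_sum]
  have e2 : ∀ f : Fin n → ℕ, (∏ j, (C ((p j).coeff (f j)) * (X j : MvPolynomial (Fin n) ℝ) ^ (f j))) =
      monomial (Finsupp.equivFunOnFinite.symm f) (∏ j, (p j).coeff (f j)) := by
    intro f
    rw [Finset.prod_mul_distrib, monomial_eq, ← map_prod]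
    congr 1
    rw [Finsupp.prod_fintype]
    · rfl
    · intro i; simp
  simp_rw [e2, coeff_monomial]
  rw [Finset.sum_eq_single (k : Fin n → ℕ)]
  · simp
  · intro f _ hf
    rw [if_neg]
    intro h
    apply hf
    rw [← h]; rfl
  · intro h
    exfalso; apply h
    rw [Fintype.mem_piFinset]
    intro j
    exact Finset.mem_range.2 (hk j)

end Pool.Agent.H8
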